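import Mathlib
import Pool.Agent.X4.MK.Cnt

/-!
# A positive proportion of the pairs in a box has no common prime factor
-/

set_option autoImplicit false

namespace Pool.Agent.X4.JB

open Finset Filter Pool.Agent.X4.MK

/-- the sum of the inverse squares -/
theorem sum_sq_le (Z : ℕ) : ∑ ℓ ∈ Finset.Icc 5 Z, (1 : ℝ) / (ℓ : ℝ) ^ 2 ≤ 1 / 4 := by
  have h : ∀ n : ℕ, ∑ ℓ ∈ Finset.Ico 5 (5 + n), (1 : ℝ) / (ℓ : ℝ) ^ 2 ≤ 1 / 4 - 1 / (4 + n : ℝ) := by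
    intro n
    induction n with
    | zero => simp
    | succ n ih =>
      rw [← add_assoc, Finset.sum_Ico_succ_top (by omega)]
      have h1 : (1 : ℝ) / ((5 + n : ℕ) : ℝ) ^ 2 ≤ 1 / (4 + n : ℝ) - 1 / (4 + (n + 1 : ℕ) : ℝ) := by
        push_cast
        rw [div_sub_div _ _ (by positivity) (by positivity),
          div_le_div_iff₀ (by positivity) (by positivity)]
        have : (0 : ℝ) ≤ n := Nat.cast_nonneg n
        nlinarith
      linarith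
  rcases Nat.lt_or_ge Z 5 with hZ | hZ
  · rw [Finset.Icc_eq_empty (by omega), Finset.sum_empty]
    norm_num
  · have e : Finset.Icc 5 Z = Finset.Ico 5 (5 + (Z + 1 - 5)) := by
      ext x; simp only [Finset.mem_Icc, Finset.mem_Ico]; omega
    rw [e]
    refine (h _).trans ?_
    have : (0 : ℝ) ≤ 1 / (4 + ((Z + 1 - 5 : ℕ)) : ℝ) := by positivity
    linarith

theorem card_primeFactors_le (w : ℕ) (hw : w ≠ 0) : (w.primeFactors.card : ℝ) ≤ 2 * Real.log w := by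
  have h1 : 2 ^ w.primeFactors.card ≤ w := by
    refine le_trans ?_ (Nat.le_of_dvd (Nat.pos_of_ne_zero hw) (Nat.prod_primeFactors_dvd w))
    rw [← Finset.prod_const]
    exact Finset.prod_le_prod' fun ℓ hℓ => (Nat.prime_of_mem_primeFactors hℓ).two_le
  have h2 : (2 : ℝ) ^ w.primeFactors.card ≤ w := by exact_mod_cast h1
  have h3 := Real.log_le_log (by positivity) h2
  rw [Real.log_pow] at h3
  have h4 := Real.log_two_gt_d9
  have h5 : (0 : ℝ) ≤ w.primeFactors.card := Nat.cast_nonneg _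
  nlinarith

open scoped Classical in
/-- the counting step: `I` rows, `J` columns -/
theorem cnt_ij (N0 : ℕ) (h6 : 6 ∣ N0) (hN : 0 < N0) (u1 w1 : ℤ) (I J Z : ℕ) (hI : 0 < I)
    (hZ : 0 < Z) (Ω : ℝ) (hΩ0 : 0 ≤ Ω)
    (hΩ : ∀ i ∈ range I, w1 + (N0 : ℤ) * i ≠ 0 →
      (((w1 + (N0 : ℤ) * i).natAbs.primeFactors.card : ℕ) : ℝ) ≤ Ω) :
    (I : ℝ) * J - ((I : ℝ) * J / 4 + (I + J + 1) * Z + I * Ω * (J / Z + 1) + J) ≤
    ((((range I ×ˢ range J).filter fun t : ℕ × ℕ => ∀ ℓ : ℕ, ℓ.Prime → ¬ ℓ ∣ N0 →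
      ¬ ((ℓ : ℤ) ∣ u1 + (N0 : ℤ) * t.2 ∧ (ℓ : ℤ) ∣ w1 + (N0 : ℤ) * t.1)).card : ℕ) : ℝ) := by
  set Bad : Finset (ℕ × ℕ) := (range I ×ˢ range J).filter fun t : ℕ × ℕ => ¬ ∀ ℓ : ℕ, ℓ.Prime →
    ¬ ℓ ∣ N0 → ¬ ((ℓ : ℤ) ∣ u1 + (N0 : ℤ) * t.2 ∧ (ℓ : ℤ) ∣ w1 + (N0 : ℤ) * t.1) with hBad
  have htot := card_filter_add_card_filter_not (s := range I ×ˢ range J)
    (fun t : ℕ × ℕ => ∀ ℓ : ℕ, ℓ.Prime → ¬ ℓ ∣ N0 →
      ¬ ((ℓ : ℤ) ∣ u1 + (N0 : ℤ) * t.2 ∧ (ℓ : ℤ) ∣ w1 + (N0 : ℤ) * t.1))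
  rw [card_product, card_range, card_range, ← hBad] at htot
  have htot' : ((((range I ×ˢ range J).filter fun t : ℕ × ℕ => ∀ ℓ : ℕ, ℓ.Prime → ¬ ℓ ∣ N0 →
      ¬ ((ℓ : ℤ) ∣ u1 + (N0 : ℤ) * t.2 ∧ (ℓ : ℤ) ∣ w1 + (N0 : ℤ) * t.1)).card : ℕ) : ℝ) +
      (Bad.card : ℝ) = (I : ℝ) * J := by exact_mod_cast htot
  suffices hb : (Bad.card : ℝ) ≤ (I : ℝ) * J / 4 + (I + J + 1) * Z + I * Ω * (J / Z + 1) + J by
    linarith
  -- three parts
  set B1 : Finset (ℕ × ℕ) := ((range I).filter fun i : ℕ => w1 + (N0 : ℤ) * i = 0) ×ˢ range J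
    with hB1
  set B2 : Finset (ℕ × ℕ) := ((Finset.Icc 5 Z).filter fun ℓ => ℓ.Prime ∧ ¬ ℓ ∣ N0).biUnion fun ℓ =>
    ((range I).filter fun i : ℕ => (ℓ : ℤ) ∣ w1 + N0 * i) ×ˢ
      ((range J).filter fun j : ℕ => (ℓ : ℤ) ∣ u1 + N0 * j) with hB2
  set B3 : Finset (ℕ × ℕ) := ((range I).filter fun i : ℕ => w1 + (N0 : ℤ) * i ≠ 0).biUnion fun i =>
    (((w1 + (N0 : ℤ) * i).natAbs.primeFactors.filter fun ℓ => Z < ℓ ∧ ¬ ℓ ∣ N0).biUnion fun ℓ =>
      ({i} : Finset ℕ) ×ˢ ((range J).filter fun j : ℕ => (ℓ : ℤ) ∣ u1 + N0 * j)) with hB3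
  have hsub : Bad ⊆ B1 ∪ (B2 ∪ B3) := by
    rintro ⟨i, j⟩ ht
    rw [hBad, mem_filter, mem_product] at ht
    obtain ⟨⟨hi, hj⟩, hbad⟩ := ht
    simp only at hi hj hbad
    push Not at hbad
    obtain ⟨ℓ, hℓ, hℓN, hℓu, hℓw⟩ := hbad
    by_cases hw0 : w1 + (N0 : ℤ) * i = 0
    · apply mem_union_left
      rw [hB1, mem_product, mem_filter]
      exact ⟨⟨hi, hw0⟩, hj⟩
    · apply mem_union_right
      rcases Nat.lt_or_ge Z ℓ with hZℓ | hZℓ
      · apply mem_union_right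
        rw [hB3, mem_biUnion]
        refine ⟨i, by rw [mem_filter]; exact ⟨hi, hw0⟩, ?_⟩
        rw [mem_biUnion]
        refine ⟨ℓ, ?_, ?_⟩
        · rw [mem_filter, Nat.mem_primeFactors]
          exact ⟨⟨hℓ, Int.natCast_dvd.1 hℓw, Int.natAbs_ne_zero.2 hw0⟩, hZℓ, hℓN⟩
        · rw [mem_product, mem_filter]
          exact ⟨mem_singleton_self _, hj, hℓu⟩
      · apply mem_union_left
        rw [hB2, mem_biUnion]
        have h5 : 5 ≤ ℓ := by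
          by_contra hcon
          push Not at hcon
          have h2 := hℓ.two_le
          interval_cases ℓ
          · exact hℓN ((by norm_num : 2 ∣ 6).trans h6)
          · exact hℓN ((by norm_num : 3 ∣ 6).trans h6)
          · exact absurd hℓ (by norm_num)
        refine ⟨ℓ, by rw [mem_filter, Finset.mem_Icc]; exact ⟨⟨h5, hZℓ⟩, hℓ, hℓN⟩, ?_⟩
        rw [mem_product, mem_filter, mem_filter]
        exact ⟨⟨hi, hℓw⟩, hj, hℓu⟩
  have hI0 : (0 : ℝ) < I := by exact_mod_cast hI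
  have hJ0 : (0 : ℝ) ≤ J := Nat.cast_nonneg J
  have hZ0 : (0 : ℝ) < Z := by exact_mod_cast hZ
  have c1 : (B1.card : ℝ) ≤ J := by
    rw [hB1, card_product, card_range]
    have : ((range I).filter fun i : ℕ => w1 + (N0 : ℤ) * i = 0).card ≤ 1 := by
      rw [card_le_one]
      intro a ha b hb
      rw [mem_filter] at ha hb
      have h1 : (N0 : ℤ) * a = N0 * b := by linarith [ha.2, hb.2]
      have h2 : (N0 : ℤ) ≠ 0 := by exact_mod_cast hN.ne'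
      exact_mod_cast mul_left_cancel₀ h2 h1
    calc ((((range I).filter fun i : ℕ => w1 + (N0 : ℤ) * i = 0).card * J : ℕ) : ℝ) ≤
        ((1 * J : ℕ) : ℝ) := by exact_mod_cast Nat.mul_le_mul_right J this
      _ = J := by simp
  have hdiv : ∀ (K ℓ : ℕ), ((K / ℓ + 1 : ℕ) : ℝ) ≤ (K : ℝ) / ℓ + 1 := by
    intro K ℓ
    push_cast
    have : ((K / ℓ : ℕ) : ℝ) ≤ (K : ℝ) / ℓ := Nat.cast_div_le
    linarith
  have c2 : (B2.card : ℝ) ≤ (I : ℝ) * J / 4 + (I + J + 1) * Z := by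
    have h1 : (B2.card : ℝ) ≤ ∑ ℓ ∈ (Finset.Icc 5 Z).filter (fun ℓ => ℓ.Prime ∧ ¬ ℓ ∣ N0),
        ((I : ℝ) / ℓ + 1) * ((J : ℝ) / ℓ + 1) := by
      have h2 := Nat.cast_le (α := ℝ).2 (card_biUnion_le (s := (Finset.Icc 5 Z).filter
        (fun ℓ => ℓ.Prime ∧ ¬ ℓ ∣ N0)) (t := fun ℓ =>
        ((range I).filter fun i : ℕ => (ℓ : ℤ) ∣ w1 + N0 * i) ×ˢ
          ((range J).filter fun j : ℕ => (ℓ : ℤ) ∣ u1 + N0 * j)))
      rw [Nat.cast_sum] at h2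
      refine h2.trans (Finset.sum_le_sum fun ℓ hℓ => ?_)
      rw [mem_filter] at hℓ
      rw [card_product, Nat.cast_mul]
      have k1 : ((((range I).filter fun i : ℕ => (ℓ : ℤ) ∣ w1 + N0 * i).card : ℕ) : ℝ) ≤
          (I : ℝ) / ℓ + 1 := (Nat.cast_le.2 (ap_le I ℓ hℓ.2.1 N0 hℓ.2.2 _)).trans (hdiv I ℓ)
      have k2 : ((((range J).filter fun j : ℕ => (ℓ : ℤ) ∣ u1 + N0 * j).card : ℕ) : ℝ) ≤
          (J : ℝ) / ℓ + 1 := (Nat.cast_le.2 (ap_le J ℓ hℓ.2.1 N0 hℓ.2.2 _)).trans (hdiv J ℓ)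
      exact mul_le_mul k1 k2 (Nat.cast_nonneg _) (by positivity)
    refine h1.trans ?_
    have h2 : ∑ ℓ ∈ (Finset.Icc 5 Z).filter (fun ℓ => ℓ.Prime ∧ ¬ ℓ ∣ N0),
        ((I : ℝ) / ℓ + 1) * ((J : ℝ) / ℓ + 1) ≤ ∑ ℓ ∈ Finset.Icc 5 Z,
        ((I : ℝ) / ℓ + 1) * ((J : ℝ) / ℓ + 1) :=
      Finset.sum_le_sum_of_subset_of_nonneg (filter_subset _ _) fun _ _ _ => by positivity
    refine h2.trans ?_
    have h3 : ∀ ℓ ∈ Finset.Icc 5 Z, ((I : ℝ) / ℓ + 1) * ((J : ℝ) / ℓ + 1) ≤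
        (I : ℝ) * J * (1 / (ℓ : ℝ) ^ 2) + (I + J + 1) := by
      intro ℓ hℓ
      rw [Finset.mem_Icc] at hℓ
      have hℓ1 : (1 : ℝ) ≤ ℓ := by exact_mod_cast (by omega : 1 ≤ ℓ)
      have k1 : (I : ℝ) / ℓ ≤ I := div_le_self hI0.le hℓ1
      have k2 : (J : ℝ) / ℓ ≤ J := div_le_self hJ0 hℓ1
      have k3 : ((I : ℝ) / ℓ + 1) * ((J : ℝ) / ℓ + 1) =
          (I : ℝ) * J * (1 / (ℓ : ℝ) ^ 2) + ((I : ℝ) / ℓ + J / ℓ + 1) := by
        field_simp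
        ring
      rw [k3]
      linarith
    refine (Finset.sum_le_sum h3).trans ?_
    rw [Finset.sum_add_distrib, ← Finset.mul_sum, Finset.sum_const, nsmul_eq_mul]
    have k1 := mul_le_mul_of_nonneg_left (sum_sq_le Z) (show 0 ≤ (I : ℝ) * J by positivity)
    have k2 : ((Finset.Icc 5 Z).card : ℝ) ≤ Z := by
      rw [Nat.card_Icc]
      exact_mod_cast (by omega : Z + 1 - 5 ≤ Z)
    have k3 := mul_le_mul_of_nonneg_right k2 (show 0 ≤ (I : ℝ) + J + 1 by positivity)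
    linarith
  have c3 : (B3.card : ℝ) ≤ I * Ω * (J / Z + 1) := by
    have h1 := Nat.cast_le (α := ℝ).2 (card_biUnion_le (s := (range I).filter fun i : ℕ =>
      w1 + (N0 : ℤ) * i ≠ 0) (t := fun i =>
      (((w1 + (N0 : ℤ) * i).natAbs.primeFactors.filter fun ℓ => Z < ℓ ∧ ¬ ℓ ∣ N0).biUnion fun ℓ =>
        ({i} : Finset ℕ) ×ˢ ((range J).filter fun j : ℕ => (ℓ : ℤ) ∣ u1 + N0 * j))))
    rw [Nat.cast_sum] at h1
    refine h1.trans ?_
    have h2 : ∀ i ∈ (range I).filter (fun i : ℕ => w1 + (N0 : ℤ) * i ≠ 0),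
        (((((w1 + (N0 : ℤ) * i).natAbs.primeFactors.filter fun ℓ => Z < ℓ ∧ ¬ ℓ ∣ N0).biUnion
          fun ℓ => ({i} : Finset ℕ) ×ˢ
            ((range J).filter fun j : ℕ => (ℓ : ℤ) ∣ u1 + N0 * j)).card : ℕ) : ℝ) ≤
          Ω * (J / Z + 1) := by
      intro i hi
      rw [mem_filter] at hi
      have k1 := Nat.cast_le (α := ℝ).2 (card_biUnion_le
        (s := (w1 + (N0 : ℤ) * i).natAbs.primeFactors.filter fun ℓ => Z < ℓ ∧ ¬ ℓ ∣ N0)
        (t := fun ℓ => ({i} : Finset ℕ) ×ˢ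
            ((range J).filter fun j : ℕ => (ℓ : ℤ) ∣ u1 + N0 * j)))
      rw [Nat.cast_sum] at k1
      refine k1.trans ?_
      have k2 : ∀ ℓ ∈ (w1 + (N0 : ℤ) * i).natAbs.primeFactors.filter (fun ℓ => Z < ℓ ∧ ¬ ℓ ∣ N0),
          (((({i} : Finset ℕ) ×ˢ ((range J).filter fun j : ℕ =>
            (ℓ : ℤ) ∣ u1 + N0 * j)).card : ℕ) : ℝ) ≤ J / Z + 1 := by
        intro ℓ hℓ
        rw [mem_filter, Nat.mem_primeFactors] at hℓ
        rw [card_product, card_singleton, one_mul]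
        refine (Nat.cast_le.2 (ap_le J ℓ hℓ.1.1 N0 hℓ.2.2 _)).trans ((hdiv J ℓ).trans ?_)
        have : (J : ℝ) / ℓ ≤ (J : ℝ) / Z := by
          apply div_le_div_of_nonneg_left hJ0 hZ0
          exact_mod_cast hℓ.2.1.le
        linarith
      refine (Finset.sum_le_sum k2).trans ?_
      rw [Finset.sum_const, nsmul_eq_mul]
      have k3 : ((((w1 + (N0 : ℤ) * i).natAbs.primeFactors.filter fun ℓ =>
          Z < ℓ ∧ ¬ ℓ ∣ N0).card : ℕ) : ℝ) ≤ Ω :=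
        (Nat.cast_le.2 (card_filter_le _ _)).trans (hΩ i hi.1 hi.2)
      exact mul_le_mul_of_nonneg_right k3 (by positivity)
    refine (Finset.sum_le_sum h2).trans ?_
    rw [Finset.sum_const, nsmul_eq_mul]
    have k4 : ((((range I).filter fun i : ℕ => w1 + (N0 : ℤ) * i ≠ 0).card : ℕ) : ℝ) ≤ I := by
      have := card_filter_le (range I) (fun i : ℕ => w1 + (N0 : ℤ) * i ≠ 0)
      rw [card_range] at this
      exact_mod_cast this
    calc _ ≤ (I : ℝ) * (Ω * (J / Z + 1)) := mul_le_mul_of_nonneg_right k4 (by positivity)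
      _ = _ := by ring
  have h1 := card_le_card hsub
  have h2 := (card_union_le B1 (B2 ∪ B3))
  have h3 := (card_union_le B2 B3)
  have h4 : (Bad.card : ℝ) ≤ (B1.card : ℝ) + ((B2.card : ℝ) + B3.card) := by
    exact_mod_cast h1.trans (h2.trans (Nat.add_le_add_left h3 _))
  linarith


theorem cnt2 (N0 : ℕ) (h6 : 6 ∣ N0) (hN : 0 < N0) (A η : ℝ) (hA : 0 < A) (hη : 0 < η) :
    ∃ X0 : ℝ, ∀ X : ℝ, X0 ≤ X → ∀ us ws U W : ℝ, X ^ η ≤ U → X ^ η ≤ W → |ws| + W ≤ X ^ A →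
      ∀ u0 w0 : ℤ, ∃ E : Finset (ℤ × ℤ),
        (∀ e ∈ E, |(e.1 : ℝ) - us| ≤ U ∧ |(e.2 : ℝ) - ws| ≤ W ∧ (N0 : ℤ) ∣ e.1 - u0 ∧
          (N0 : ℤ) ∣ e.2 - w0 ∧ ∀ ℓ : ℕ, ℓ.Prime → ¬ ℓ ∣ N0 → ¬ ((ℓ : ℤ) ∣ e.1 ∧ (ℓ : ℤ) ∣ e.2)) ∧
        U * W * (1 / (2 * (N0 : ℝ) ^ 2)) ≤ (E.card : ℝ) := by
  have hN0 : (0 : ℝ) < N0 := by exact_mod_cast hN
  -- asymptotic facts
  have f1 : ∀ᶠ X : ℝ in atTop, 64 * (N0 : ℝ) * (X ^ (η / 2) + 1) ≤ X ^ η := by
    have h := tendsto_rpow_atTop (show 0 < η / 2 by linarith)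
    filter_upwards [h.eventually_ge_atTop (128 * (N0 : ℝ)), h.eventually_ge_atTop 1,
      eventually_gt_atTop 0] with X h1 h2 h3
    calc 64 * (N0 : ℝ) * (X ^ (η / 2) + 1) ≤ 64 * N0 * (X ^ (η / 2) + X ^ (η / 2)) := by gcongr
      _ = 128 * N0 * X ^ (η / 2) := by ring
      _ ≤ X ^ (η / 2) * X ^ (η / 2) := by gcongr
      _ = X ^ η := by rw [← Real.rpow_add h3]; ring_nf
  have f2 : ∀ᶠ X : ℝ in atTop, 32 * (2 * (A * Real.log X)) ≤ X ^ (η / 2) - 1 := by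
    have h := isLittleO_log_rpow_atTop (show 0 < η / 2 by linarith)
    have h2 := h.bound (show 0 < 1 / (128 * A) by positivity)
    have h' := tendsto_rpow_atTop (show 0 < η / 2 by linarith)
    filter_upwards [h2, eventually_ge_atTop 1, h'.eventually_ge_atTop 2] with X h3 h4 h5
    have h6 : 0 ≤ Real.log X := Real.log_nonneg h4
    have h7 : (0 : ℝ) ≤ X ^ (η / 2) := by positivity
    rw [Real.norm_of_nonneg h6, Real.norm_of_nonneg h7] at h3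
    calc 32 * (2 * (A * Real.log X)) = 64 * A * Real.log X := by ring
      _ ≤ 64 * A * (1 / (128 * A) * X ^ (η / 2)) := mul_le_mul_of_nonneg_left h3 (by positivity)
      _ = X ^ (η / 2) / 2 := by field_simp; ring
      _ ≤ X ^ (η / 2) - 1 := by linarith
  obtain ⟨X0, hX0⟩ := eventually_atTop.1 (f1.and (f2.and (eventually_gt_atTop (1 : ℝ))))
  refine ⟨X0, ?_⟩
  intro X hX us ws U W hU hW hws u0 w0
  obtain ⟨g1, g2, g3⟩ := hX0 X hX
  have hXpos : 0 < X := by linarith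
  have hlogX : 0 < Real.log X := Real.log_pos g3
  have hX2 : 0 < X ^ (η / 2) := by positivity
  have hXη : (64 : ℝ) * N0 ≤ X ^ η := by
    refine le_trans ?_ g1
    nlinarith
  set Z : ℕ := ⌊X ^ (η / 2)⌋₊ with hZ
  have hZ1 : (Z : ℝ) ≤ X ^ (η / 2) := Nat.floor_le hX2.le
  have hZ2 : X ^ (η / 2) - 1 < Z := by
    have := Nat.lt_floor_add_one (X ^ (η / 2))
    rw [← hZ] at this
    linarith
  set Ω : ℝ := 2 * (A * Real.log X) with hΩ
  have hΩ0 : 0 ≤ Ω := by positivity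
  have hZΩ : 32 * Ω ≤ Z := g2.trans hZ2.le
  have hZ0 : (0 : ℝ) < Z := by
    have : 0 < Ω := by positivity
    linarith
  have hZn : 0 < Z := by exact_mod_cast hZ0
  have hNW : (N0 : ℝ) ≤ W := by linarith
  have hNU : (N0 : ℝ) ≤ U := by linarith
  obtain ⟨k1, hk1⟩ := ap_start ws W N0 hN hNW w0
  obtain ⟨k0, hk0⟩ := ap_start us U N0 hN hNU u0
  set I := ⌊W / (N0 : ℝ)⌋₊ + 1 with hI
  set J := ⌊U / (N0 : ℝ)⌋₊ + 1 with hJ
  have hIr : W / (N0 : ℝ) ≤ I := by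
    rw [hI]; push_cast; exact (Nat.lt_floor_add_one _).le
  have hJr : U / (N0 : ℝ) ≤ J := by
    rw [hJ]; push_cast; exact (Nat.lt_floor_add_one _).le
  have hIbig : 64 * (X ^ (η / 2) + 1) ≤ I := by
    refine le_trans ?_ hIr
    rw [le_div_iff₀ hN0]
    linarith
  have hJbig : 64 * (X ^ (η / 2) + 1) ≤ J := by
    refine le_trans ?_ hJr
    rw [le_div_iff₀ hN0]
    linarith
  have hcnt := cnt_ij N0 h6 hN (u0 + (N0 : ℤ) * k0) (w0 + (N0 : ℤ) * k1) I J Z (by omega) hZn Ω hΩ0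
    (by
      intro i hi hne
      refine (card_primeFactors_le _ (Int.natAbs_ne_zero.2 hne)).trans ?_
      rw [hΩ]
      have hwi := hk1 i (mem_range.1 hi)
      have e : w0 + (N0 : ℤ) * (k1 + i) = w0 + (N0 : ℤ) * k1 + (N0 : ℤ) * i := by ring
      rw [e] at hwi
      have h1 : (((w0 + (N0 : ℤ) * k1 + (N0 : ℤ) * i).natAbs : ℕ) : ℝ) =
          |((w0 + (N0 : ℤ) * k1 + (N0 : ℤ) * i : ℤ) : ℝ)| := by
        rw [Nat.cast_natAbs]; push_cast; rfl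
      have h2 : |((w0 + (N0 : ℤ) * k1 + (N0 : ℤ) * i : ℤ) : ℝ)| ≤ X ^ A := by
        have := abs_add_le (((w0 + (N0 : ℤ) * k1 + (N0 : ℤ) * i : ℤ) : ℝ) - ws) ws
        rw [sub_add_cancel] at this
        linarith
      rw [h1]
      have h3 : 0 < |((w0 + (N0 : ℤ) * k1 + (N0 : ℤ) * i : ℤ) : ℝ)| := by
        rw [abs_pos]; exact_mod_cast hne
      have h4 := Real.log_le_log h3 h2
      rw [Real.log_rpow hXpos] at h4
      linarith)
  classical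
  let uv : ℕ → ℤ := fun j => u0 + (N0 : ℤ) * k0 + (N0 : ℤ) * j
  let wv : ℕ → ℤ := fun i => w0 + (N0 : ℤ) * k1 + (N0 : ℤ) * i
  let φ : ℕ × ℕ → ℤ × ℤ := fun t => (uv t.2, wv t.1)
  have hφ : Function.Injective φ := by
    rintro ⟨i, j⟩ ⟨i', j'⟩ h
    simp only [φ, Prod.mk.injEq, uv, wv] at h
    obtain ⟨h1, h2⟩ := h
    have hN0' : (N0 : ℤ) ≠ 0 := by exact_mod_cast hN.ne'
    have h3 : (j : ℤ) = j' := mul_left_cancel₀ hN0' (add_left_cancel h1)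
    have h4 : (i : ℤ) = i' := mul_left_cancel₀ hN0' (add_left_cancel h2)
    have h5 : j = j' := by omega
    have h6 : i = i' := by omega
    rw [h5, h6]
  refine ⟨((range I ×ˢ range J).filter fun t : ℕ × ℕ => ∀ ℓ : ℕ, ℓ.Prime → ¬ ℓ ∣ N0 →
      ¬ ((ℓ : ℤ) ∣ u0 + (N0 : ℤ) * k0 + (N0 : ℤ) * t.2 ∧
        (ℓ : ℤ) ∣ w0 + (N0 : ℤ) * k1 + (N0 : ℤ) * t.1)).image φ, ?_, ?_⟩
  · intro e he
    rw [mem_image] at he
    obtain ⟨⟨i, j⟩, ht, rfl⟩ := he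
    rw [mem_filter, mem_product, mem_range, mem_range] at ht
    obtain ⟨⟨hi, hj⟩, hg⟩ := ht
    refine ⟨?_, ?_, ?_, ?_, hg⟩
    · have := hk0 j hj
      have e : u0 + (N0 : ℤ) * (k0 + j) = uv j := by simp only [uv]; ring
      rwa [e] at this
    · have := hk1 i hi
      have e : w0 + (N0 : ℤ) * (k1 + i) = wv i := by simp only [wv]; ring
      rwa [e] at this
    · simp only [φ, uv]
      exact ⟨k0 + j, by ring⟩
    · simp only [φ, wv]
      exact ⟨k1 + i, by ring⟩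
  · rw [card_image_of_injective _ hφ]
    refine le_trans ?_ hcnt
    have hI0 : (0 : ℝ) < I := by linarith
    have hJ0 : (0 : ℝ) < J := by linarith
    have k1 : ((I : ℝ) + J + 1) * Z ≤ I * J / 16 := by
      have a1 : (I : ℝ) * Z ≤ I * J / 64 := by
        have : (Z : ℝ) ≤ J / 64 := by linarith
        calc (I : ℝ) * Z ≤ I * (J / 64) := by gcongr
          _ = _ := by ring
      have a2 : (J : ℝ) * Z ≤ I * J / 64 := by
        have : (Z : ℝ) ≤ I / 64 := by linarith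
        calc (J : ℝ) * Z ≤ J * (I / 64) := by gcongr
          _ = _ := by ring
      have a3 : (Z : ℝ) ≤ I * J / 64 := by
        have b1 : (1 : ℝ) ≤ I := by linarith
        have b2 : (Z : ℝ) ≤ J / 64 := by linarith
        calc (Z : ℝ) = 1 * Z := (one_mul _).symm
          _ ≤ I * (J / 64) := by gcongr
          _ = _ := by ring
      nlinarith
    have k2 : (I : ℝ) * Ω * (J / Z + 1) ≤ I * J / 16 := by
      have a1 : (I : ℝ) * Ω * (J / Z) ≤ I * J / 32 := by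
        have : Ω / Z ≤ 1 / 32 := by
          rw [div_le_iff₀ hZ0]; linarith
        calc (I : ℝ) * Ω * (J / Z) = I * J * (Ω / Z) := by ring
          _ ≤ I * J * (1 / 32) := by gcongr
          _ = _ := by ring
      have a2 : (I : ℝ) * Ω ≤ I * J / 32 := by
        have : Ω ≤ J / 32 := by linarith
        calc (I : ℝ) * Ω ≤ I * (J / 32) := by gcongr
          _ = _ := by ring
      have : (I : ℝ) * Ω * (J / Z + 1) = I * Ω * (J / Z) + I * Ω := by ring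
      rw [this]
      linarith
    have k3 : (J : ℝ) ≤ I * J / 64 := by
      have : (1 : ℝ) ≤ I / 64 := by linarith
      calc (J : ℝ) = 1 * J := (one_mul _).symm
        _ ≤ I / 64 * J := by gcongr
        _ = _ := by ring
    have hU0 : 0 ≤ U := by linarith
    have hW0 : 0 ≤ W := by linarith
    have k4 : W / (N0 : ℝ) * (U / N0) ≤ (I : ℝ) * J := by gcongr
    have k5 : U * W * (1 / (2 * (N0 : ℝ) ^ 2)) = W / (N0 : ℝ) * (U / N0) / 2 := by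
      field_simp
    rw [k5]
    have k6 : 0 < (I : ℝ) * J := by positivity
    linarith

end Pool.Agent.X4.JB
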