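import Mathlib
import Pool.Agent.X4.JB.Core3
import Pool.Agent.X4.MK.Lim

/-!
# Well spaced abc triples with small radicals near every point
-/

set_option autoImplicit false

namespace Pool.Agent.X4.JB

open Finset Filter Pool.Agent.X4.MK

/-- abc triples with individually restricted radicals -/
structure Tri (α β γ : ℝ) (a b c : ℕ) : Prop where
  apos : 0 < a
  bpos : 0 < b
  cop : Nat.Coprime a b
  sum : a + b = c
  ra : (rd a : ℝ) ≤ (a : ℝ) ^ α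
  rb : (rd b : ℝ) ≤ (b : ℝ) ^ β
  rc : (rd c : ℝ) ≤ (c : ℝ) ^ γ

theorem half_floor {y : ℝ} (hy : 1 ≤ y) : y / 2 ≤ (⌊y⌋₊ : ℝ) := by
  have h1 := Nat.lt_floor_add_one y
  rcases le_or_gt 2 y with h2 | h2
  · linarith
  · have h3 : (1 : ℕ) ≤ ⌊y⌋₊ := Nat.le_floor (by exact_mod_cast hy)
    have h4 : (1 : ℝ) ≤ (⌊y⌋₊ : ℝ) := by exact_mod_cast h3
    linarith

theorem pair_dist {f g : ℤ × ℤ} {X : ℝ} {D : ℕ} (hX : 0 < X)
    (f1 : 0 < f.1) (f2 : 0 < f.2) (fX : (f.1 : ℝ) + f.2 ≤ X) (fc : IsCoprime f.1 f.2)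
    (g1 : 0 < g.1) (g2 : 0 < g.2) (gX : (g.1 : ℝ) + g.2 ≤ X) (gc : IsCoprime g.1 g.2)
    (hne : f ≠ g) (hd : (D : ℤ) ∣ f.1 * g.2 - g.1 * f.2) :
    (D : ℝ) / X ^ 2 ≤ |(f.1 : ℝ) / ((f.1 : ℝ) + f.2) - (g.1 : ℝ) / ((g.1 : ℝ) + g.2)| := by
  have hdet := det_ne f1 f2 g1 fc gc hne
  have hge : (D : ℝ) ≤ |((f.1 * g.2 - g.1 * f.2 : ℤ) : ℝ)| := by
    have := Int.le_of_dvd (abs_pos.2 hdet) ((dvd_abs _ _).2 hd)
    exact_mod_cast this
  have c1 : (0 : ℝ) < (f.1 : ℝ) + f.2 := by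
    have : (0 : ℤ) < f.1 + f.2 := by omega
    exact_mod_cast this
  have c2 : (0 : ℝ) < (g.1 : ℝ) + g.2 := by
    have : (0 : ℤ) < g.1 + g.2 := by omega
    exact_mod_cast this
  have e : (f.1 : ℝ) / ((f.1 : ℝ) + f.2) - (g.1 : ℝ) / ((g.1 : ℝ) + g.2) =
      ((f.1 * g.2 - g.1 * f.2 : ℤ) : ℝ) / (((f.1 : ℝ) + f.2) * ((g.1 : ℝ) + g.2)) := by
    push_cast
    field_simp
    ring
  rw [e, abs_div, abs_of_pos (mul_pos c1 c2)]
  have k5 : ((f.1 : ℝ) + f.2) * ((g.1 : ℝ) + g.2) ≤ X ^ 2 := by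
    rw [sq]
    exact mul_le_mul fX gX c2.le hX.le
  gcongr

theorem frac (α β γ : ℝ) (hα : 0 < α) (hα1 : α ≤ 1) (hβ : 0 < β) (hβ1 : β ≤ 1) (hγ : 0 < γ)
    (hγ1 : γ ≤ 1) (hs : 1 < α + β + γ) :
    ∃ c0 : ℝ, 0 < c0 ∧ ∀ θ1 θ2 : ℝ, 0 ≤ θ1 → θ1 < θ2 → θ2 ≤ 1 → ∃ X0 : ℝ, ∀ X : ℝ, X0 ≤ X →
      ∃ F : Finset ℝ, c0 * (θ2 - θ1) * X ^ (α + β + γ - 1) ≤ (F.card : ℝ) ∧
        (∀ x ∈ F, ∀ y ∈ F, x ≠ y → X ^ (-(α + β + γ - 1)) ≤ |x - y|) ∧
        ∀ x ∈ F, θ1 < x ∧ x < θ2 ∧ ∃ a b c : ℕ, Tri α β γ a b c ∧ X / 2 < c ∧ (c : ℝ) ≤ X ∧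
          x = (a : ℝ) / c := by
  obtain ⟨p, q, r, hp, hq, hr, hpq, hpr, hqr, hpm, hqm, hrm⟩ := exists_primes 6 (by norm_num)
  have hp0 : (0 : ℝ) < p := by exact_mod_cast hp.pos
  have hq0 : (0 : ℝ) < q := by exact_mod_cast hq.pos
  have hr0 : (0 : ℝ) < r := by exact_mod_cast hr.pos
  have hp1 : (1 : ℝ) ≤ p := by exact_mod_cast hp.one_lt.le
  have hq1 : (1 : ℝ) ≤ q := by exact_mod_cast hq.one_lt.le
  have hr1 : (1 : ℝ) ≤ r := by exact_mod_cast hr.one_lt.le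
  obtain ⟨K, hK⟩ : ∃ K : ℝ, K = (p : ℝ) ^ 2 * (q : ℝ) ^ 2 * (r : ℝ) ^ 2 := ⟨_, rfl⟩
  have hK0 : 0 < K := by rw [hK]; positivity
  obtain ⟨N, hN⟩ : ∃ N : ℝ, N = ((6 * p * q * r : ℕ) : ℝ) := ⟨_, rfl⟩
  have hN0 : 0 < N := by rw [hN]; push_cast; positivity
  refine ⟨1 / (32 * 640 * N ^ 2 * K), by positivity, ?_⟩
  intro θ1 θ2 h0 h12 h1
  obtain ⟨ρ, hρ⟩ : ∃ ρ : ℝ, ρ = (θ2 - θ1) / 32 := ⟨_, rfl⟩
  have hρ0 : 0 < ρ := by rw [hρ]; linarith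
  have hρ1 : ρ ≤ 1 / 32 := by rw [hρ]; linarith
  have hab : ∀ ℓ : ℕ, ℓ.Prime → ℓ ∣ 6 → ¬ ((ℓ : ℤ) ∣ (1 : ℤ) ∧ (ℓ : ℤ) ∣ (1 : ℤ)) := by
    rintro ℓ hℓ - ⟨h, -⟩
    have := Int.natCast_dvd_natCast.1 (by simpa using h : (ℓ : ℤ) ∣ ((1 : ℕ) : ℤ))
    exact hℓ.one_lt.ne' (Nat.dvd_one.1 this)
  obtain ⟨X0, hX0⟩ := core3 p q r 6 hp hq hr hpq hpr hqr (by norm_num) hpm hqm hrm 1 1 hab
    α β γ hα hβ hγ hs θ1 θ2 h0 h12 h1 (dvd_refl 6)
  refine ⟨max X0 1, ?_⟩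
  intro X hX
  have hXX : X0 ≤ X := (le_max_left _ _).trans hX
  have hX1 : 1 ≤ X := (le_max_right _ _).trans hX
  have hXpos : 0 < X := by linarith
  obtain ⟨e1, he1, le1, ue1⟩ := exists_exp hp (Real.one_le_rpow hX1 (by linarith : 0 ≤ 1 - α))
  obtain ⟨e2, he2, le2, ue2⟩ := exists_exp hq (Real.one_le_rpow hX1 (by linarith : 0 ≤ 1 - β))
  obtain ⟨e3, he3, le3, ue3⟩ := exists_exp hr (Real.one_le_rpow hX1 (by linarith : 0 ≤ 1 - γ))
  have hPC := pc_of hp hq hr hpq hpr hqr e1 e2 e3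
  obtain ⟨D, hD⟩ : ∃ D : ℕ, D = p ^ e1 * q ^ e2 * r ^ e3 := ⟨_, rfl⟩
  have hDe : (D : ℝ) = ((p ^ e1 : ℕ) : ℝ) * ((q ^ e2 : ℕ) : ℝ) * ((r ^ e3 : ℕ) : ℝ) := by
    rw [hD, Nat.cast_mul, Nat.cast_mul]
  have hM10 : (0 : ℝ) < ((p ^ e1 : ℕ) : ℝ) := by exact_mod_cast hPC.p1
  have hM20 : (0 : ℝ) < ((q ^ e2 : ℕ) : ℝ) := by exact_mod_cast hPC.p2
  have hM30 : (0 : ℝ) < ((r ^ e3 : ℕ) : ℝ) := by exact_mod_cast hPC.p3
  have hD0 : (0 : ℝ) < D := by rw [hDe]; positivity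
  have hXe : X ^ (1 - α) * X ^ (1 - β) * X ^ (1 - γ) = X ^ 2 * X ^ (-(α + β + γ - 1)) := by
    rw [← Real.rpow_natCast, ← Real.rpow_add hXpos, ← Real.rpow_add hXpos, ← Real.rpow_add hXpos]
    congr 1
    push_cast
    ring
  have hDK : (D : ℝ) ≤ K * (X ^ 2 * X ^ (-(α + β + γ - 1))) := by
    rw [hDe, ← hXe]
    calc _ ≤ ((p : ℝ) ^ 2 * X ^ (1 - α)) * ((q : ℝ) ^ 2 * X ^ (1 - β)) *
          ((r : ℝ) ^ 2 * X ^ (1 - γ)) := by gcongr
      _ = _ := by rw [hK]; ring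
  have hDl : X ^ 2 * X ^ (-(α + β + γ - 1)) ≤ D := by
    rw [hDe, ← hXe]
    have g1 : X ^ (1 - α) ≤ ((p ^ e1 : ℕ) : ℝ) :=
      le_trans (le_mul_of_one_le_left (by positivity) hp1) le1
    have g2 : X ^ (1 - β) ≤ ((q ^ e2 : ℕ) : ℝ) :=
      le_trans (le_mul_of_one_le_left (by positivity) hq1) le2
    have g3 : X ^ (1 - γ) ≤ ((r ^ e3 : ℕ) : ℝ) :=
      le_trans (le_mul_of_one_le_left (by positivity) hr1) le3
    gcongr
  -- the centres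
  obtain ⟨J, hJ⟩ : ∃ J : ℕ, J = ⌊1 / (20 * ρ)⌋₊ := ⟨_, rfl⟩
  have hJ1 : 1 / (40 * ρ) ≤ J := by
    rw [hJ]
    have h2 : 1 ≤ 1 / (20 * ρ) := by
      rw [le_div_iff₀ (by positivity)]; linarith
    have := half_floor h2
    have e : 1 / (20 * ρ) / 2 = 1 / (40 * ρ) := by field_simp; norm_num
    linarith
  have hJ2 : (J : ℝ) * (20 * ρ) ≤ 1 := by
    have := Nat.floor_le (show 0 ≤ 1 / (20 * ρ) by positivity)
    rw [← hJ, le_div_iff₀ (by positivity)] at this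
    exact this
  have hF : ∀ j : ℕ, ∃ F : Finset (ℤ × ℤ), j < J →
      ((∀ f ∈ F, Good X θ1 θ2 (p ^ e1) (q ^ e2) (r ^ e3) 6 1 1 f ∧
        |(f.1 : ℝ) + f.2 - (5 * X / 8 + 5 * j * ρ * X)| ≤ 2 * ρ * X) ∧
      ρ ^ 2 / (16 * N ^ 2) * X ^ 2 / D ≤ (F.card : ℝ)) := by
    intro j
    by_cases hj : j < J
    · have hj' : (j : ℝ) ≤ J := by exact_mod_cast hj.le
      obtain ⟨F, hF1, hF2⟩ := hX0 X hXX e1 e2 e3 he1 he2 he3 (5 * X / 8 + 5 * j * ρ * X)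
        (by
          have : 0 ≤ 5 * (j : ℝ) * ρ * X := by positivity
          linarith)
        (by
          have h3 : (j : ℝ) * (20 * ρ) ≤ 1 :=
            (mul_le_mul_of_nonneg_right hj' (by positivity)).trans hJ2
          have h4 := mul_le_mul_of_nonneg_right h3 hXpos.le
          have h5 : 5 * (j : ℝ) * ρ * X = (j : ℝ) * (20 * ρ) * X / 4 := by ring
          rw [h5]
          linarith) ue1 ue2 ue3
      refine ⟨F, fun _ => ⟨fun f hf => ⟨(hF1 f hf).1, ?_⟩, ?_⟩⟩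
      · have e : (θ2 - θ1) / 16 * X = 2 * ρ * X := by rw [hρ]; ring
        rw [← e]
        exact (hF1 f hf).2
      · rw [hN, hρ, hD]
        exact hF2
    · exact ⟨∅, fun h => absurd h hj⟩
  choose F hFs using hF
  classical
  obtain ⟨G, hG⟩ : ∃ G : Finset (ℤ × ℤ), G = (range J).biUnion F := ⟨_, rfl⟩
  have hGgood : ∀ f ∈ G, Good X θ1 θ2 (p ^ e1) (q ^ e2) (r ^ e3) 6 1 1 f := by
    intro f hf
    rw [hG, mem_biUnion] at hf
    obtain ⟨j, hj, hf⟩ := hf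
    exact (((hFs j) (mem_range.1 hj)).1 f hf).1
  have hdisj : ((range J : Finset ℕ) : Set ℕ).PairwiseDisjoint F := by
    intro i hi j hj hij
    rw [Function.onFun, Finset.disjoint_left]
    intro f hfi hfj
    have a1 := (((hFs i) (mem_range.1 hi)).1 f hfi).2
    have a2 := (((hFs j) (mem_range.1 hj)).1 f hfj).2
    rw [abs_le] at a1 a2
    have hij' : (1 : ℝ) ≤ |(i : ℝ) - j| := by
      have h3 : (1 : ℤ) ≤ |(i : ℤ) - j| := by
        rw [← Int.zero_add 1, Int.add_one_le_iff]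
        apply abs_pos.2
        omega
      exact_mod_cast h3
    have h4 : |((i : ℝ) - j) * (5 * ρ * X)| ≤ 4 * ρ * X := by
      rw [abs_le]
      constructor <;> linarith [a1.1, a1.2, a2.1, a2.2]
    rw [abs_mul, abs_of_pos (by positivity : 0 < 5 * ρ * X)] at h4
    have h5 := mul_le_mul_of_nonneg_right hij' (by positivity : 0 ≤ 5 * ρ * X)
    have h6 : 0 < ρ * X := by positivity
    linarith
  have hGcard : 1 / (32 * 640 * N ^ 2 * K) * (θ2 - θ1) * X ^ (α + β + γ - 1) ≤ (G.card : ℝ) := by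
    rw [hG, card_biUnion hdisj]
    push_cast
    have h2 : ∑ _j ∈ range J, ρ ^ 2 / (16 * N ^ 2) * X ^ 2 / D ≤
        ∑ j ∈ range J, ((F j).card : ℝ) :=
      Finset.sum_le_sum fun j hj => ((hFs j) (mem_range.1 hj)).2
    rw [Finset.sum_const, card_range, nsmul_eq_mul] at h2
    refine le_trans ?_ h2
    have h3 : X ^ 2 / (K * (X ^ 2 * X ^ (-(α + β + γ - 1)))) ≤ X ^ 2 / D := by
      apply div_le_div_of_nonneg_left (by positivity) hD0 hDK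
    have h4 : X ^ 2 / (K * (X ^ 2 * X ^ (-(α + β + γ - 1)))) = X ^ (α + β + γ - 1) / K := by
      rw [Real.rpow_neg hXpos.le]
      field_simp
    rw [h4] at h3
    calc 1 / (32 * 640 * N ^ 2 * K) * (θ2 - θ1) * X ^ (α + β + γ - 1) =
        1 / (40 * ρ) * (ρ ^ 2 / (16 * N ^ 2) * (X ^ (α + β + γ - 1) / K)) := by
          rw [hρ]
          have : θ2 - θ1 ≠ 0 := by linarith
          field_simp
          norm_num
      _ ≤ (J : ℝ) * (ρ ^ 2 / (16 * N ^ 2) * (X ^ 2 / D)) := by gcongr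
      _ = (J : ℝ) * (ρ ^ 2 / (16 * N ^ 2) * X ^ 2 / D) := by ring
  let φ : ℤ × ℤ → ℝ := fun f => (f.1 : ℝ) / ((f.1 : ℝ) + f.2)
  have hsp : ∀ f ∈ G, ∀ g ∈ G, f ≠ g → X ^ (-(α + β + γ - 1)) ≤ |φ f - φ g| := by
    intro f hf g hg hne
    have hf' := hGgood f hf
    have hg' := hGgood g hg
    have h2 : ((D : ℕ) : ℤ) ∣ f.1 * g.2 - g.1 * f.2 := by
      rw [hD]
      exact det_dvd hPC hf'.inl hg'.inl
    refine le_trans ?_ (pair_dist hXpos hf'.apos hf'.bpos hf'.cle hf'.cop hg'.apos hg'.bpos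
      hg'.cle hg'.cop hne h2)
    rw [le_div_iff₀ (by positivity)]
    calc X ^ (-(α + β + γ - 1)) * X ^ 2 = X ^ 2 * X ^ (-(α + β + γ - 1)) := mul_comm _ _
      _ ≤ D := hDl
  have hinj : Set.InjOn φ (G : Set (ℤ × ℤ)) := by
    intro f hf g hg hfg
    by_contra hne
    have h2 := hsp f hf g hg hne
    rw [hfg, sub_self, abs_zero] at h2
    have : 0 < X ^ (-(α + β + γ - 1)) := by positivity
    linarith
  refine ⟨G.image φ, ?_, ?_, ?_⟩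
  · rw [card_image_of_injOn hinj]
    exact hGcard
  · intro x hx y hy hxy
    rw [mem_image] at hx hy
    obtain ⟨f, hf, rfl⟩ := hx
    obtain ⟨g, hg, rfl⟩ := hy
    exact hsp f hf g hg (fun h => hxy (by rw [h]))
  · intro x hx
    rw [mem_image] at hx
    obtain ⟨f, hf, rfl⟩ := hx
    have h := hGgood f hf
    obtain ⟨a, ha⟩ := Int.eq_ofNat_of_zero_le h.apos.le
    obtain ⟨b, hb⟩ := Int.eq_ofNat_of_zero_le h.bpos.le
    have ha' : (f.1 : ℝ) = a := by rw [ha]; simp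
    have hb' : (f.2 : ℝ) = b := by rw [hb]; simp
    have hapos : 0 < a := by have := h.apos; rw [ha] at this; exact_mod_cast this
    have hbpos : 0 < b := by have := h.bpos; rw [hb] at this; exact_mod_cast this
    have hc0 : (0 : ℝ) < (f.1 : ℝ) + f.2 := by rw [ha', hb']; positivity
    have hlo := h.lo
    have hhi := h.hi
    have hcl := h.clow
    have hcu := h.cle
    refine ⟨(lt_div_iff₀ hc0).2 hlo, (div_lt_iff₀ hc0).2 hhi, a, b, a + b, ?_, ?_, ?_, ?_⟩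
    · have haX : (a : ℝ) ≤ X := by
        rw [ha', hb'] at hcu
        have : (0 : ℝ) ≤ b := Nat.cast_nonneg b
        linarith
      have hbX : (b : ℝ) ≤ X := by
        rw [ha', hb'] at hcu
        have : (0 : ℝ) ≤ a := Nat.cast_nonneg a
        linarith
      have hcX : ((a + b : ℕ) : ℝ) ≤ X := by
        push_cast
        rw [ha', hb'] at hcu
        exact hcu
      have d1 : p ^ e1 ∣ a := by
        have := h.inl.h1
        rw [ha] at this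
        exact_mod_cast this
      have d2 : q ^ e2 ∣ b := by
        have := h.inl.h2
        rw [hb] at this
        exact_mod_cast this
      have d3 : r ^ e3 ∣ a + b := by
        have := h.inl.h3
        rw [ha, hb] at this
        exact_mod_cast this
      refine ⟨hapos, hbpos, ?_, rfl, rd_le_rpow hp he1.ne' hapos d1 haX hα1 le1,
        rd_le_rpow hq he2.ne' hbpos d2 hbX hβ1 le2,
        rd_le_rpow hr he3.ne' (by omega) d3 hcX hγ1 le3⟩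
      have := h.cop
      rw [ha, hb] at this
      exact Nat.isCoprime_iff_coprime.1 this
    · push_cast
      rw [← ha', ← hb']
      exact hcl
    · push_cast
      rw [← ha', ← hb']
      exact hcu
    · simp only [φ]
      rw [ha', hb']
      push_cast
      rfl

end Pool.Agent.X4.JB
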