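import Mathlib
import Pool.Agent.H389R2.Dim.Lower

/-!
# A lower bound for the Hausdorff dimension of limsup sets of well spaced points
-/

set_option autoImplicit false

namespace Pool.Agent.X4.JB

open Finset Filter Topology Metric

/-- `T` is a set of pairs (point, height) with many well spaced points of height about `X` in every
interval -/
def Rich (κ c0 : ℝ) (T : Set (ℝ × ℝ)) : Prop :=
  ∀ θ1 θ2 : ℝ, 0 ≤ θ1 → θ1 < θ2 → θ2 ≤ 1 → ∃ X0 : ℝ, ∀ X : ℝ, X0 ≤ X → ∃ F : Finset ℝ,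
    c0 * (θ2 - θ1) * X ^ κ ≤ (F.card : ℝ) ∧ (∀ x ∈ F, ∀ y ∈ F, x ≠ y → X ^ (-κ) ≤ |x - y|) ∧
    ∀ x ∈ F, θ1 < x ∧ x < θ2 ∧ ∃ h : ℝ, (x, h) ∈ T ∧ X / 2 < h ∧ h ≤ X

/-- the limsup set -/
def Lset (T : Set (ℝ × ℝ)) (τ : ℝ) : Set ℝ :=
  {x | ∀ n : ℝ, ∃ y h : ℝ, (y, h) ∈ T ∧ n ≤ h ∧ |x - y| < h ^ (-τ)}

/-- a level: centres, radius, spacing -/
structure Lv where
  C : Finset ℝ
  r : ℝ
  e : ℝ

structure Ok (t : ℝ) (L : Lv) : Prop where
  rpos : 0 < L.r
  re : L.r ≤ L.e / 8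
  e1 : L.e ≤ 1
  inn : ∀ x ∈ L.C, L.r ≤ x ∧ x ≤ 1 - L.r
  sep : ∀ x ∈ L.C, ∀ y ∈ L.C, x ≠ y → L.e ≤ |x - y|
  ne : L.C.Nonempty
  mass : 1 / 8 ≤ (L.C.card : ℝ) * L.r ^ t

open scoped Classical in
structure Stp (T : Set (ℝ × ℝ)) (τ c0 : ℝ) (m : ℕ) (L L' : Lv) : Prop where
  card : L'.C.card = m * L.C.card
  ch : ∀ x ∈ L.C, (L'.C.filter fun y => |y - x| ≤ L.r / 2).card ≤ m
  par : ∀ y ∈ L'.C, ∃ x ∈ L.C, |y - x| ≤ L.r / 2
  many : c0 * L.r ≤ m * L'.e
  rr : L'.r ≤ L.r / 4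
  ee : L'.e ≤ L.r / 4
  tt : ∀ y ∈ L'.C, ∃ h : ℝ, (y, h) ∈ T ∧ 1 / L.r ≤ h ∧ L'.r < h ^ (-τ)

theorem exists_step {T : Set (ℝ × ℝ)} {κ c0 τ t : ℝ} (hT : Rich κ c0 T) (hκ : 0 < κ) (hc0 : 0 < c0)
    (hτ : κ ≤ τ) (ht : 0 < t) (htκ : t * τ < κ) (ht1 : t ≤ 1) (L : Lv) (hL : Ok t L) :
    ∃ m : ℕ, ∃ L' : Lv, Ok t L' ∧ Stp T τ c0 m L L' := by
  classical
  have hr := hL.rpos
  have hre := hL.re
  -- the choice of `X`
  have ev1 : ∀ᶠ X : ℝ in atTop, ∀ x ∈ L.C, ∃ F : Finset ℝ,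
      c0 * L.r * X ^ κ ≤ (F.card : ℝ) ∧ (∀ x ∈ F, ∀ y ∈ F, x ≠ y → X ^ (-κ) ≤ |x - y|) ∧
      ∀ y ∈ F, x - L.r / 2 < y ∧ y < x + L.r / 2 ∧ ∃ h : ℝ, (y, h) ∈ T ∧ X / 2 < h ∧ h ≤ X := by
    rw [Finset.eventually_all]
    intro x hx
    obtain ⟨i1, i2⟩ := hL.inn x hx
    obtain ⟨X0, hX0⟩ := hT (x - L.r / 2) (x + L.r / 2) (by linarith) (by linarith) (by linarith)
    filter_upwards [eventually_ge_atTop X0] with X hX
    obtain ⟨F, h1, h2, h3⟩ := hX0 X hX
    refine ⟨F, ?_, h2, h3⟩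
    have e : x + L.r / 2 - (x - L.r / 2) = L.r := by ring
    rwa [e] at h1
  have ev2 : ∀ᶠ X : ℝ in atTop, X ^ (-κ) ≤ L.r / 4 := by
    have h := tendsto_rpow_neg_atTop hκ
    exact h.eventually_le_const (by positivity)
  have ev3 : ∀ᶠ X : ℝ in atTop, 1 ≤ c0 * L.r * X ^ (κ - t * τ) := by
    have h := (tendsto_rpow_atTop (show 0 < κ - t * τ by linarith)).const_mul_atTop
      (show 0 < c0 * L.r by positivity)
    exact h.eventually_ge_atTop 1
  obtain ⟨X, h1, h2, h3, h4, h5⟩ := (ev1.and (ev2.and (ev3.and ((eventually_ge_atTop (2 / L.r)).and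
    (eventually_ge_atTop (1 : ℝ)))))).exists
  have hX0 : 0 < X := by linarith
  have hXκ : 0 < X ^ (-κ) := by positivity
  have hXτ : X ^ (-τ) ≤ X ^ (-κ) := Real.rpow_le_rpow_of_exponent_le h5 (by linarith)
  have hXτ0 : 0 < X ^ (-τ) := by positivity
  obtain ⟨m, hm⟩ : ∃ m : ℕ, m = ⌈c0 * L.r * X ^ κ⌉₊ := ⟨_, rfl⟩
  have hm1 : c0 * L.r * X ^ κ ≤ m := by rw [hm]; exact Nat.le_ceil _
  have hF : ∀ x : ℝ, ∃ F : Finset ℝ, x ∈ L.C → F.card = m ∧
      (∀ x ∈ F, ∀ y ∈ F, x ≠ y → X ^ (-κ) ≤ |x - y|) ∧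
      ∀ y ∈ F, x - L.r / 2 < y ∧ y < x + L.r / 2 ∧ ∃ h : ℝ, (y, h) ∈ T ∧ X / 2 < h ∧ h ≤ X := by
    intro x
    by_cases hx : x ∈ L.C
    · obtain ⟨F, a1, a2, a3⟩ := h1 x hx
      have hle : m ≤ F.card := by rw [hm]; exact Nat.ceil_le.2 a1
      obtain ⟨F', hF', hF'c⟩ := Finset.exists_subset_card_eq hle
      exact ⟨F', fun _ => ⟨hF'c, fun y hy z hz => a2 y (hF' hy) z (hF' hz),
        fun y hy => a3 y (hF' hy)⟩⟩
    · exact ⟨∅, fun h => absurd h hx⟩
  choose F hFs using hF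
  -- distance to the parent
  have hpar : ∀ x ∈ L.C, ∀ y ∈ F x, |y - x| < L.r / 2 := by
    intro x hx y hy
    obtain ⟨b1, b2, -⟩ := (hFs x hx).2.2 y hy
    rw [abs_lt]
    constructor <;> linarith
  have hdisj : ((L.C : Finset ℝ) : Set ℝ).PairwiseDisjoint F := by
    intro x hx x' hx' hne
    rw [Function.onFun, Finset.disjoint_left]
    intro y hy hy'
    have b1 := hpar x hx y hy
    have b2 := hpar x' hx' y hy'
    have b3 := hL.sep x hx x' hx' hne
    have b4 : |x - x'| ≤ |y - x'| + |y - x| := by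
      have := abs_sub (y - x') (y - x)
      have e : y - x' - (y - x) = x - x' := by ring
      rwa [e] at this
    linarith
  refine ⟨m, ⟨L.C.biUnion F, X ^ (-τ) / 8, X ^ (-κ)⟩, ?_, ?_⟩
  · refine ⟨by positivity, ?_, ?_, ?_, ?_, ?_, ?_⟩
    · simp only
      linarith
    · simp only
      linarith [hL.e1]
    · intro y hy
      simp only [mem_biUnion] at hy ⊢
      obtain ⟨x, hx, hy⟩ := hy
      have b1 := hpar x hx y hy
      obtain ⟨b2, b3⟩ := hL.inn x hx
      rw [abs_lt] at b1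
      constructor <;> linarith
    · intro y hy z hz hyz
      simp only [mem_biUnion] at hy hz ⊢
      obtain ⟨x, hx, hy⟩ := hy
      obtain ⟨x', hx', hz⟩ := hz
      by_cases hxx : x = x'
      · subst hxx
        exact (hFs x hx).2.1 y hy z hz hyz
      · have b1 := hpar x hx y hy
        have b2 := hpar x' hx' z hz
        have b3 := hL.sep x hx x' hx' hxx
        have b4 : |x - x'| ≤ |y - z| + |y - x| + |z - x'| := by
          have e : x - x' = (y - z) - (y - x) + (z - x') := by ring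
          rw [e]
          exact (abs_add_le _ _).trans (by linarith [abs_sub (y - z) (y - x)])
        linarith
    · obtain ⟨x, hx⟩ := hL.ne
      have hm0 : 0 < m := by
        have : (0 : ℝ) < m := lt_of_lt_of_le (by positivity) hm1
        exact_mod_cast this
      have : (F x).Nonempty := by
        rw [← Finset.card_pos, (hFs x hx).1]
        exact hm0
      obtain ⟨y, hy⟩ := this
      exact ⟨y, mem_biUnion.2 ⟨x, hx, hy⟩⟩
    · simp only
      rw [card_biUnion hdisj]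
      obtain ⟨x, hx⟩ := hL.ne
      have c1 : m ≤ ∑ x ∈ L.C, (F x).card := by
        calc m = (F x).card := (hFs x hx).1.symm
          _ ≤ _ := Finset.single_le_sum (f := fun x => (F x).card) (fun _ _ => Nat.zero_le _) hx
      have c2 : (m : ℝ) ≤ ((∑ x ∈ L.C, (F x).card : ℕ) : ℝ) := by exact_mod_cast c1
      have c3 : (X ^ (-τ) / 8) ^ t = X ^ (-(t * τ)) / 8 ^ t := by
        rw [Real.div_rpow hXτ0.le (by norm_num), ← Real.rpow_mul hX0.le]
        congr 2; ring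
      have c4 : (8 : ℝ) ^ t ≤ 8 := by
        calc (8 : ℝ) ^ t ≤ 8 ^ (1 : ℝ) := Real.rpow_le_rpow_of_exponent_le (by norm_num) ht1
          _ = 8 := Real.rpow_one _
      rw [c3]
      have c5 : X ^ (-(t * τ)) / 8 ≤ X ^ (-(t * τ)) / 8 ^ t :=
        div_le_div_of_nonneg_left (by positivity) (by positivity) c4
      calc (1 : ℝ) / 8 ≤ c0 * L.r * X ^ (κ - t * τ) / 8 := by linarith
        _ = c0 * L.r * X ^ κ * (X ^ (-(t * τ)) / 8) := by
            rw [sub_eq_add_neg, Real.rpow_add hX0]; ring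
        _ ≤ ((∑ x ∈ L.C, (F x).card : ℕ) : ℝ) * (X ^ (-(t * τ)) / 8 ^ t) := by
            gcongr
            exact hm1.trans c2
  · refine ⟨?_, ?_, ?_, ?_, ?_, ?_, ?_⟩
    · simp only
      rw [card_biUnion hdisj, Finset.sum_congr rfl (fun x hx => (hFs x hx).1), Finset.sum_const,
        smul_eq_mul, mul_comm]
    · intro x hx
      simp only
      rw [← (hFs x hx).1]
      apply card_le_card
      intro y hy
      rw [mem_filter, mem_biUnion] at hy
      obtain ⟨⟨x', hx', hy'⟩, hyx⟩ := hy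
      by_cases hxx : x = x'
      · rw [hxx]; exact hy'
      · exfalso
        have b1 := hpar x' hx' y hy'
        have b3 := hL.sep x hx x' hx' hxx
        have b4 : |x - x'| ≤ |y - x'| + |y - x| := by
          have := abs_sub (y - x') (y - x)
          have e : y - x' - (y - x) = x - x' := by ring
          rwa [e] at this
        linarith
    · intro y hy
      simp only [mem_biUnion] at hy
      obtain ⟨x, hx, hy⟩ := hy
      exact ⟨x, hx, (hpar x hx y hy).le⟩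
    · simp only
      calc c0 * L.r = c0 * L.r * X ^ κ * X ^ (-κ) := by
            rw [mul_assoc, ← Real.rpow_add hX0, add_neg_cancel, Real.rpow_zero, mul_one]
        _ ≤ m * X ^ (-κ) := by gcongr
    · simp only
      linarith
    · exact h2
    · intro y hy
      simp only [mem_biUnion] at hy ⊢
      obtain ⟨x, hx, hy⟩ := hy
      obtain ⟨-, -, h, d1, d2, d3⟩ := (hFs x hx).2.2 y hy
      refine ⟨h, d1, ?_, ?_⟩
      · have : 1 / L.r ≤ X / 2 := by
          rw [div_le_iff₀ hr] at h4 ⊢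
          linarith
        linarith
      · have hh0 : 0 < h := by linarith
        have : X ^ (-τ) ≤ h ^ (-τ) :=
          Real.rpow_le_rpow_of_nonpos hh0 d3 (by linarith)
        linarith

/-- separated points in an interval -/
theorem sep_count {C : Finset ℝ} {e x R : ℝ} (he : 0 < e) (hR : 0 ≤ R)
    (hC : ∀ y ∈ C, |y - x| < R) (hs : ∀ y ∈ C, ∀ z ∈ C, y ≠ z → e ≤ |y - z|) :
    (C.card : ℝ) ≤ 2 * R / e + 1 := by
  let ψ : ℝ → ℕ := fun y => ⌊(y - (x - R)) / e⌋₊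
  have hpos : ∀ y ∈ C, 0 ≤ (y - (x - R)) / e := by
    intro y hy
    have := hC y hy
    rw [abs_lt] at this
    exact div_nonneg (by linarith) he.le
  have hinj : Set.InjOn ψ (C : Set ℝ) := by
    intro y hy z hz hyz
    by_contra hne
    have h1 := hs y hy z hz hne
    have k1 := Nat.floor_le (hpos y hy)
    have k2 := Nat.floor_le (hpos z hz)
    have k3 := Nat.lt_floor_add_one ((y - (x - R)) / e)
    have k4 := Nat.lt_floor_add_one ((z - (x - R)) / e)
    have e1 : ⌊(y - (x - R)) / e⌋₊ = ⌊(z - (x - R)) / e⌋₊ := hyz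
    rw [e1] at k1 k3
    have k5 : |(y - (x - R)) / e - (z - (x - R)) / e| < 1 := by
      rw [abs_lt]; constructor <;> linarith
    have k6 : (y - (x - R)) / e - (z - (x - R)) / e = (y - z) / e := by ring
    rw [k6, abs_div, abs_of_pos he, div_lt_one he] at k5
    linarith
  have h1 : C.image ψ ⊆ range (⌊2 * R / e⌋₊ + 1) := by
    intro k hk
    rw [mem_image] at hk
    obtain ⟨y, hy, rfl⟩ := hk
    rw [mem_range, Nat.lt_succ_iff]
    apply Nat.floor_le_floor
    have := hC y hy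
    rw [abs_lt] at this
    apply div_le_div_of_nonneg_right _ he.le
    linarith
  have h2 := card_le_card h1
  rw [card_image_of_injOn hinj, card_range] at h2
  have h3 : (C.card : ℝ) ≤ (⌊2 * R / e⌋₊ : ℝ) + 1 := by exact_mod_cast h2
  have h4 := Nat.floor_le (show 0 ≤ 2 * R / e by positivity)
  linarith

open scoped Classical in
/-- number of centres in a ball -/
noncomputable def cb (L : Lv) (x ρ : ℝ) : ℕ := (L.C.filter fun y => |y - x| < ρ).card

theorem cb_mono (L : Lv) (x : ℝ) {ρ ρ' : ℝ} (h : ρ ≤ ρ') : cb L x ρ ≤ cb L x ρ' := by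
  classical
  unfold cb
  apply card_le_card
  intro y hy
  rw [mem_filter] at hy ⊢
  exact ⟨hy.1, lt_of_lt_of_le hy.2 h⟩

theorem cb_step {T : Set (ℝ × ℝ)} {τ c0 : ℝ} {m : ℕ} {L L' : Lv} (h : Stp T τ c0 m L L')
    (x ρ : ℝ) : cb L' x ρ ≤ m * cb L x (ρ + L.r / 2) := by
  classical
  unfold cb
  have h1 : (L'.C.filter fun y => |y - x| < ρ) ⊆
      (L.C.filter fun z => |z - x| < ρ + L.r / 2).biUnion fun z =>
        L'.C.filter fun y => |y - z| ≤ L.r / 2 := by
    intro y hy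
    rw [mem_filter] at hy
    obtain ⟨z, hz, hyz⟩ := h.par y hy.1
    rw [mem_biUnion]
    refine ⟨z, ?_, by rw [mem_filter]; exact ⟨hy.1, hyz⟩⟩
    rw [mem_filter]
    refine ⟨hz, ?_⟩
    have e : z - x = (y - x) - (y - z) := by ring
    rw [e]
    exact lt_of_le_of_lt (abs_sub _ _) (by linarith [hy.2])
  refine (card_le_card h1).trans (card_biUnion_le.trans ?_)
  rw [mul_comm, ← smul_eq_mul, ← Finset.sum_const]
  apply Finset.sum_le_sum
  intro z hz
  rw [mem_filter] at hz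
  exact h.ch z hz.1

theorem cb_sep {t : ℝ} {L : Lv} (hL : Ok t L) (x : ℝ) {ρ : ℝ} (hρ : 0 ≤ ρ) :
    (cb L x ρ : ℝ) ≤ 2 * ρ / L.e + 1 := by
  classical
  have he : 0 < L.e := by linarith [hL.rpos, hL.re]
  unfold cb
  refine sep_count he hρ (fun y hy => (mem_filter.1 hy).2) ?_
  intro y hy z hz hne
  exact hL.sep y (mem_filter.1 hy).1 z (mem_filter.1 hz).1 hne

theorem cb_iter {T : Set (ℝ × ℝ)} {τ c0 t : ℝ} {L : ℕ → Lv} {m : ℕ → ℕ} (hOk : ∀ n, Ok t (L n))
    (hS : ∀ n, Stp T τ c0 (m n) (L n) (L (n + 1))) (x : ℝ) (j : ℕ) (n : ℕ) (hn : j ≤ n) :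
    ∀ ρ : ℝ, (L j).C.card * cb (L n) x ρ ≤
      (L n).C.card * cb (L j) x (ρ + (L j).r - (L n).r) := by
  induction n, hn using Nat.le_induction with
  | base =>
    intro ρ
    have e : ρ + (L j).r - (L j).r = ρ := by ring
    rw [e]
  | succ n hn ih =>
    intro ρ
    have h1 := cb_step (hS n) x ρ
    have h2 := ih (ρ + (L n).r / 2)
    have h3 : cb (L j) x (ρ + (L n).r / 2 + (L j).r - (L n).r) ≤
        cb (L j) x (ρ + (L j).r - (L (n + 1)).r) := by
      apply cb_mono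
      have := (hS n).rr
      have := (hOk n).rpos
      linarith
    rw [(hS n).card]
    calc (L j).C.card * cb (L (n + 1)) x ρ ≤ (L j).C.card * (m n * cb (L n) x (ρ + (L n).r / 2)) :=
          Nat.mul_le_mul_left _ h1
      _ = m n * ((L j).C.card * cb (L n) x (ρ + (L n).r / 2)) := by ring
      _ ≤ m n * ((L n).C.card * cb (L j) x (ρ + (L n).r / 2 + (L j).r - (L n).r)) :=
          Nat.mul_le_mul_left _ h2
      _ ≤ m n * ((L n).C.card * cb (L j) x (ρ + (L j).r - (L (n + 1)).r)) := by gcongr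
      _ = _ := by ring

theorem min_le_pow {a b t z : ℝ} (ha : 0 < a) (hb : 0 < b) (ht : 0 ≤ t) (ht1 : t ≤ 1) (h1 : z ≤ a)
    (h2 : z ≤ b) : z ≤ a ^ (1 - t) * b ^ t := by
  rcases le_or_gt z 0 with hz | hz
  · exact hz.trans (by positivity)
  · calc z = z ^ (1 - t) * z ^ t := by
          rw [← Real.rpow_add hz, sub_add_cancel, Real.rpow_one]
      _ ≤ a ^ (1 - t) * b ^ t := by
          apply mul_le_mul (Real.rpow_le_rpow hz.le h1 (by linarith))
            (Real.rpow_le_rpow hz.le h2 ht) (by positivity) (by positivity)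

/-- the main counting estimate -/
theorem cb_main {T : Set (ℝ × ℝ)} {τ c0 t : ℝ} {L : ℕ → Lv} {m : ℕ → ℕ} (hOk : ∀ n, Ok t (L n))
    (hS : ∀ n, Stp T τ c0 (m n) (L n) (L (n + 1))) (hc0 : 0 < c0) (ht : 0 < t) (ht1 : t ≤ 1)
    (h0 : (L 0).e = 1) (hlim : ∀ ρ : ℝ, 0 < ρ → ∃ n, (L n).e ≤ ρ) (x ρ : ℝ) (hρ : 0 < ρ) :
    ∃ j : ℕ, ∀ n : ℕ, j ≤ n → (cb (L n) x ρ : ℝ) ≤
      (32 / c0 ^ t + 1) * ((L n).C.card : ℝ) * ρ ^ t := by
  classical
  have hA : 0 < 32 / c0 ^ t := by positivity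
  rcases le_or_gt 1 ρ with hρ1 | hρ1
  · refine ⟨0, fun n _ => ?_⟩
    have h1 : cb (L n) x ρ ≤ (L n).C.card := card_filter_le _ _
    have h2 : (cb (L n) x ρ : ℝ) ≤ ((L n).C.card : ℝ) := by exact_mod_cast h1
    have h3 : 1 ≤ ρ ^ t := Real.one_le_rpow hρ1 ht.le
    have h4 : (0 : ℝ) ≤ ((L n).C.card : ℝ) := Nat.cast_nonneg _
    calc (cb (L n) x ρ : ℝ) ≤ 1 * ((L n).C.card : ℝ) * 1 := by linarith
      _ ≤ (32 / c0 ^ t + 1) * ((L n).C.card : ℝ) * ρ ^ t := by gcongr; linarith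
  · have hex := hlim ρ hρ
    set j := Nat.find hex with hj
    have hje : (L j).e ≤ ρ := Nat.find_spec hex
    have hj0 : j ≠ 0 := by
      intro h
      rw [h, h0] at hje
      linarith
    obtain ⟨i, hi⟩ := Nat.exists_eq_succ_of_ne_zero hj0
    have hie : ρ < (L i).e := by
      by_contra hcon
      push Not at hcon
      have := Nat.find_min' hex hcon
      omega
    refine ⟨j, fun n hn => ?_⟩
    have hOj := hOk j
    have hOi := hOk i
    have hSi := hS i
    have hji : j = i + 1 := hi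
    rw [← hji] at hSi
    have hrj := hOj.rpos
    have hrje := hOj.re
    have hri := hOi.rpos
    have hrie := hOi.re
    have hrr := hSi.rr
    have hej : 0 < (L j).e := by linarith
    have hei : 0 < (L i).e := by linarith
    have hNj : 0 < ((L j).C.card : ℝ) := by exact_mod_cast hOj.ne.card_pos
    have hNi : 0 < ((L i).C.card : ℝ) := by exact_mod_cast hOi.ne.card_pos
    have hNn : 0 < ((L n).C.card : ℝ) := by exact_mod_cast (hOk n).ne.card_pos
    have hmj : (0 : ℝ) < m i := by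
      have := hSi.many
      by_contra hcon
      push Not at hcon
      have : (m i : ℝ) * (L j).e ≤ 0 := mul_nonpos_of_nonpos_of_nonneg hcon hej.le
      have : 0 < c0 * (L i).r := by positivity
      linarith
    -- at level `j`
    have b0 : ((L j).C.card : ℝ) * (cb (L n) x ρ : ℝ) ≤
        ((L n).C.card : ℝ) * (cb (L j) x (ρ + (L j).r) : ℝ) := by
      have k1 := cb_iter hOk hS x j n hn ρ
      have k2 : cb (L j) x (ρ + (L j).r - (L n).r) ≤ cb (L j) x (ρ + (L j).r) :=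
        cb_mono _ _ (by linarith [(hOk n).rpos])
      exact_mod_cast k1.trans (Nat.mul_le_mul_left _ k2)
    have b1 : (cb (L j) x (ρ + (L j).r) : ℝ) ≤ 4 * (ρ / (L j).e) := by
      refine (cb_sep hOj x (by linarith)).trans ?_
      have k1 : 1 ≤ ρ / (L j).e := by rw [le_div_iff₀ hej]; linarith
      have k2 : (L j).r / (L j).e ≤ 1 / 8 := by
        rw [div_le_iff₀ hej]; linarith
      have k3 : 2 * (ρ + (L j).r) / (L j).e = 2 * (ρ / (L j).e) + 2 * ((L j).r / (L j).e) := by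
        ring
      rw [k3]
      linarith
    have b2 : (cb (L j) x (ρ + (L j).r) : ℝ) ≤ 4 * m i := by
      have k1 := cb_step hSi x (ρ + (L j).r)
      have k2 := cb_sep hOi x (show 0 ≤ ρ + (L j).r + (L i).r / 2 by linarith)
      have k3 : 2 * (ρ + (L j).r + (L i).r / 2) / (L i).e + 1 ≤ 4 := by
        have : 2 * (ρ + (L j).r + (L i).r / 2) / (L i).e ≤ 3 := by
          rw [div_le_iff₀ hei]; linarith
        linarith
      calc (cb (L j) x (ρ + (L j).r) : ℝ) ≤ (m i : ℝ) * (cb (L i) x (ρ + (L j).r + (L i).r / 2) : ℝ) := by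
            exact_mod_cast k1
        _ ≤ (m i : ℝ) * 4 := by gcongr; linarith
        _ = _ := by ring
    have b3 := min_le_pow (t := t) (show 0 < 4 * (m i : ℝ) by positivity)
      (show 0 < 4 * (ρ / (L j).e) by positivity) ht.le ht1 b2 b1
    have b4 : (4 * (m i : ℝ)) ^ (1 - t) * (4 * (ρ / (L j).e)) ^ t =
        4 * (m i : ℝ) * ρ ^ t / ((m i : ℝ) * (L j).e) ^ t := by
      rw [Real.mul_rpow (by norm_num) hmj.le, Real.mul_rpow (by norm_num) (by positivity),
        Real.div_rpow hρ.le hej.le, Real.mul_rpow hmj.le hej.le, Real.rpow_sub (by norm_num),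
        Real.rpow_sub hmj, Real.rpow_one, Real.rpow_one]
      field_simp
    rw [b4] at b3
    have b5 : (c0 * (L i).r) ^ t ≤ ((m i : ℝ) * (L j).e) ^ t :=
      Real.rpow_le_rpow (by positivity) hSi.many ht.le
    have b6 : (cb (L j) x (ρ + (L j).r) : ℝ) ≤ 4 * (m i : ℝ) * ρ ^ t / (c0 * (L i).r) ^ t :=
      b3.trans (div_le_div_of_nonneg_left (by positivity) (by positivity) b5)
    have b7 : ((L j).C.card : ℝ) = (m i : ℝ) * ((L i).C.card : ℝ) := by exact_mod_cast hSi.card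
    have hmass := hOi.mass
    have b8 : ((L j).C.card : ℝ) * (cb (L n) x ρ : ℝ) ≤
        ((L j).C.card : ℝ) * (32 / c0 ^ t * ((L n).C.card : ℝ) * ρ ^ t) := by
      refine b0.trans ?_
      calc ((L n).C.card : ℝ) * (cb (L j) x (ρ + (L j).r) : ℝ) ≤
          ((L n).C.card : ℝ) * (4 * (m i : ℝ) * ρ ^ t / (c0 * (L i).r) ^ t) := by gcongr
        _ = ((L n).C.card : ℝ) * (4 * (m i : ℝ) * ρ ^ t / c0 ^ t) * (1 / (L i).r ^ t) := by
            rw [Real.mul_rpow hc0.le hri.le]; field_simp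
        _ ≤ ((L n).C.card : ℝ) * (4 * (m i : ℝ) * ρ ^ t / c0 ^ t) * (8 * ((L i).C.card : ℝ)) := by
            gcongr
            rw [div_le_iff₀ (by positivity)]
            linarith
        _ = _ := by rw [b7]; ring
    have b9 := le_of_mul_le_mul_left b8 hNj
    refine b9.trans ?_
    have : 0 ≤ ((L n).C.card : ℝ) * ρ ^ t := by positivity
    nlinarith

theorem cantor {T : Set (ℝ × ℝ)} {κ c0 τ t : ℝ} (hT : Rich κ c0 T) (hκ : 0 < κ) (hc0 : 0 < c0)
    (hτ : κ ≤ τ) (ht : 0 < t) (htκ : t * τ < κ) :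
    ENNReal.ofReal t ≤ dimH (Lset T τ ∩ Set.Icc 0 1) := by
  classical
  have ht1 : t ≤ 1 := by
    by_contra hcon
    push Not at hcon
    nlinarith
  let L0 : Lv := ⟨{1 / 2}, 1 / 8, 1⟩
  have hL0 : Ok t L0 := by
    refine ⟨by norm_num [L0], by norm_num [L0], by norm_num [L0], ?_, ?_, ?_, ?_⟩
    · intro x hx
      simp only [L0, mem_singleton] at hx ⊢
      rw [hx]
      norm_num
    · intro x hx y hy hxy
      simp only [L0, mem_singleton] at hx hy
      exact absurd (hx.trans hy.symm) hxy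
    · exact ⟨1 / 2, mem_singleton_self _⟩
    · simp only [L0, card_singleton, Nat.cast_one, one_mul]
      have : ((1 : ℝ) / 8) ^ (1 : ℝ) ≤ (1 / 8 : ℝ) ^ t :=
        Real.rpow_le_rpow_of_exponent_ge (by norm_num) (by norm_num) ht1
      rwa [Real.rpow_one] at this
  choose fm fL hfO hfS using fun (L : Lv) (hL : Ok t L) =>
    exists_step hT hκ hc0 hτ ht htκ ht1 L hL
  let s : ℕ → {L : Lv // Ok t L} := fun n =>
    Nat.rec ⟨L0, hL0⟩ (fun _ L => ⟨fL L.1 L.2, hfO L.1 L.2⟩) n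
  obtain ⟨L, hLdef⟩ : ∃ L : ℕ → Lv, L = fun n => (s n).1 := ⟨_, rfl⟩
  have hOk : ∀ n, Ok t (L n) := fun n => by rw [hLdef]; exact (s n).2
  obtain ⟨m, hm⟩ : ∃ m : ℕ → ℕ, m = fun n => fm (s n).1 (s n).2 := ⟨_, rfl⟩
  have hS : ∀ n, Stp T τ c0 (m n) (L n) (L (n + 1)) := fun n => by
    rw [hLdef, hm]; exact hfS (s n).1 (s n).2
  have h0 : L 0 = L0 := by rw [hLdef]; rfl
  have hrpow : ∀ n, (L n).r ≤ (1 / 4 : ℝ) ^ n := by
    intro n
    induction n with
    | zero => rw [h0]; norm_num [L0]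
    | succ n ih =>
      have := (hS n).rr
      rw [pow_succ]
      linarith
  have hr0 : ∀ ρ : ℝ, 0 < ρ → ∃ n, (L n).r < ρ := by
    intro ρ hρ
    obtain ⟨n, hn⟩ := exists_pow_lt_of_lt_one hρ (by norm_num : (1 / 4 : ℝ) < 1)
    exact ⟨n, lt_of_le_of_lt (hrpow n) hn⟩
  have hlim : ∀ ρ : ℝ, 0 < ρ → ∃ n, (L n).e ≤ ρ := by
    intro ρ hρ
    obtain ⟨n, hn⟩ := hr0 ρ hρ
    refine ⟨n + 1, ?_⟩
    have := (hS n).ee
    have := (hOk n).rpos
    linarith
  -- the compact sets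
  let E : ℕ → Set ℝ := fun n => ⋃ x ∈ (L n).C, closedBall x (L n).r
  have hEc : ∀ n, IsCompact (E n) := fun n =>
    (L n).C.isCompact_biUnion fun x _ => isCompact_closedBall _ _
  have hEsub : ∀ n, E (n + 1) ⊆ E n := by
    intro n z hz
    simp only [E, Set.mem_iUnion, mem_closedBall, exists_prop, Real.dist_eq] at hz ⊢
    obtain ⟨y, hy, hyz⟩ := hz
    obtain ⟨x, hx, hxy⟩ := (hS n).par y hy
    refine ⟨x, hx, ?_⟩
    have e : z - x = (z - y) + (y - x) := by ring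
    rw [e]
    have := (hS n).rr
    have := (hOk n).rpos
    exact (abs_add_le _ _).trans (by linarith)
  have hEanti : Antitone E := antitone_nat_of_succ_le hEsub
  obtain ⟨K, hK⟩ : ∃ K : Set ℝ, K = ⋂ n, E n := ⟨_, rfl⟩
  have hKc : IsCompact K := by
    rw [hK]
    exact (hEc 0).of_isClosed_subset (isClosed_iInter fun n => (hEc n).isClosed)
      (Set.iInter_subset _ 0)
  have hKsub : K ⊆ Lset T τ ∩ Set.Icc 0 1 := by
    intro z hz
    rw [hK, Set.mem_iInter] at hz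
    constructor
    · intro N
      have hN : 0 < 1 / (|N| + 1) := by positivity
      obtain ⟨n, hn⟩ := hr0 _ hN
      have hz1 := hz (n + 1)
      simp only [E, Set.mem_iUnion, mem_closedBall, exists_prop, Real.dist_eq] at hz1
      obtain ⟨y, hy, hyz⟩ := hz1
      obtain ⟨h, g1, g2, g3⟩ := (hS n).tt y hy
      refine ⟨y, h, g1, ?_, lt_of_le_of_lt hyz g3⟩
      have hrn := (hOk n).rpos
      have g4 : |N| + 1 ≤ 1 / (L n).r := by
        rw [le_div_iff₀ hrn]
        rw [lt_div_iff₀ (by positivity)] at hn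
        linarith
      linarith [le_abs_self N]
    · have hz1 := hz 0
      simp only [E, Set.mem_iUnion, mem_closedBall, exists_prop, Real.dist_eq] at hz1
      obtain ⟨y, hy, hyz⟩ := hz1
      obtain ⟨g1, g2⟩ := (hOk 0).inn y hy
      rw [abs_le] at hyz
      constructor <;> linarith
  refine le_trans ?_ (dimH_mono hKsub)
  refine Pool.Agent.H389R2.Dim.le_dimH_of_good (c := 1 / (32 / c0 ^ t + 1)) ht (by positivity) hKc ?_
  intro δ hδ σ hσ hcov
  -- a finite stage is covered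
  have hopen : IsOpen (⋃ p ∈ σ, ball p.1 p.2) := isOpen_biUnion fun p _ => isOpen_ball
  obtain ⟨n0, hn0⟩ := exists_subset_nhds_of_isCompact' (V := E)
    (directed_of_isDirected_le (fun i j hij => hEanti hij)) hEc (fun n => (hEc n).isClosed)
    (U := ⋃ p ∈ σ, ball p.1 p.2) (fun z hz => hopen.mem_nhds (hcov (by rw [hK]; exact hz)))
  have hj : ∀ p : ℝ × ℝ, ∃ j : ℕ, p ∈ σ → ∀ n : ℕ, j ≤ n → (cb (L n) p.1 p.2 : ℝ) ≤
      (32 / c0 ^ t + 1) * ((L n).C.card : ℝ) * p.2 ^ t := by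
    intro p
    by_cases hp : p ∈ σ
    · obtain ⟨j, hj⟩ := cb_main hOk hS hc0 ht ht1 (by rw [h0]) hlim p.1 p.2
        (lt_of_lt_of_le hδ (hσ p hp))
      exact ⟨j, fun _ => hj⟩
    · exact ⟨0, fun h => absurd h hp⟩
  choose j hj using hj
  obtain ⟨n, hn⟩ : ∃ n : ℕ, n = n0 + ∑ p ∈ σ, j p := ⟨_, rfl⟩
  have hnj : ∀ p ∈ σ, j p ≤ n := by
    intro p hp
    have := Finset.single_le_sum (fun q _ => Nat.zero_le (j q)) hp
    omega
  have hcount : ((L n).C.card : ℝ) ≤ ∑ p ∈ σ, (cb (L n) p.1 p.2 : ℝ) := by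
    have h1 : (L n).C ⊆ σ.biUnion fun p => (L n).C.filter fun y => |y - p.1| < p.2 := by
      intro y hy
      have hyE : y ∈ E n := by
        simp only [E, Set.mem_iUnion, exists_prop]
        exact ⟨y, hy, mem_closedBall_self (hOk n).rpos.le⟩
      have h2 := hn0 (hEanti (by omega : n0 ≤ n) hyE)
      simp only [Set.mem_iUnion, mem_ball, exists_prop, Real.dist_eq] at h2
      obtain ⟨p, hp, hyp⟩ := h2
      rw [mem_biUnion]
      exact ⟨p, hp, mem_filter.2 ⟨hy, hyp⟩⟩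
    have h2 := (card_le_card h1).trans card_biUnion_le
    exact_mod_cast h2
  have hNn : 0 < ((L n).C.card : ℝ) := by exact_mod_cast (hOk n).ne.card_pos
  have h3 : ((L n).C.card : ℝ) ≤
      ∑ p ∈ σ, (32 / c0 ^ t + 1) * ((L n).C.card : ℝ) * p.2 ^ t :=
    hcount.trans (Finset.sum_le_sum fun p hp => hj p hp n (hnj p hp))
  rw [← Finset.mul_sum] at h3
  have hA : 0 < 32 / c0 ^ t + 1 := by positivity
  rw [div_le_iff₀ hA]
  have h4 : ((L n).C.card : ℝ) * 1 ≤ ((L n).C.card : ℝ) *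
      ((∑ p ∈ σ, p.2 ^ t) * (32 / c0 ^ t + 1)) := by
    calc _ = ((L n).C.card : ℝ) := mul_one _
      _ ≤ _ := h3
      _ = _ := by ring
  exact le_of_mul_le_mul_left h4 hNn

end Pool.Agent.X4.JB
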