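import Mathlib
import Pool.Agent.X4.JB.Cantor

/-!
# Full measure and the upper bound for the dimension
-/

set_option autoImplicit false

namespace Pool.Agent.X4.JB

open Finset Filter Topology Metric MeasureTheory
open scoped ENNReal NNReal

/-- Hausdorff dimension of a limsup set covered by few balls at each scale -/
theorem dimH_limsup (E : ℕ → Set ℝ) (S : ℕ → Finset ℝ) (r : ℕ → ℝ) (s : ℝ≥0) (θ C : ℝ)
    (hr : ∀ m, 0 < r m) (hr0 : Tendsto r atTop (𝓝 0)) (hra : Antitone r)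
    (hE : ∀ m, E m ⊆ ⋃ y ∈ S m, Metric.closedBall y (r m)) (hθ : 0 ≤ θ) (hθ1 : θ < 1) (hC : 0 ≤ C)
    (hc : ∀ m, ((S m).card : ℝ) * (2 * r m) ^ (s : ℝ) ≤ C * θ ^ m) :
    dimH (⋂ n : ℕ, ⋃ m : ℕ, E (n + m)) ≤ s := by
  apply dimH_le_of_hausdorffMeasure_ne_top
  have hmain : μH[(s : ℝ)] (⋂ n : ℕ, ⋃ m : ℕ, E (n + m)) ≤ 0 := by
    have h1 := Measure.hausdorffMeasure_le_liminf_tsum (X := ℝ) (β := ℕ)
      (ι := fun n => Σ m : ℕ, S (n + m)) (s : ℝ) (⋂ n : ℕ, ⋃ m : ℕ, E (n + m)) (l := atTop)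
      (fun n => ENNReal.ofReal (2 * r n)) (by
        have h2 : Tendsto (fun n => 2 * r n) atTop (𝓝 0) := by simpa using hr0.const_mul 2
        rw [← ENNReal.ofReal_zero]
        exact (ENNReal.continuous_ofReal.tendsto 0).comp h2)
      (fun n i => Metric.closedBall (i.2 : ℝ) (r (n + i.1)))
      (Eventually.of_forall fun n i => by
        apply Metric.ediam_le
        intro x hx y hy
        rw [edist_dist]
        apply ENNReal.ofReal_le_ofReal
        rw [Metric.mem_closedBall] at hx hy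
        have h3 := dist_triangle_right x y (i.2 : ℝ)
        have h4 := hra (Nat.le_add_right n i.1)
        linarith)
      (Eventually.of_forall fun n => by
        intro x hx
        obtain ⟨m, hm⟩ := Set.mem_iUnion.mp (Set.mem_iInter.mp hx n)
        obtain ⟨y, hy⟩ := Set.mem_iUnion.mp (hE (n + m) hm)
        obtain ⟨hy1, hy2⟩ := Set.mem_iUnion.mp hy
        exact Set.mem_iUnion.mpr ⟨⟨m, ⟨y, hy1⟩⟩, hy2⟩)
    refine h1.trans ?_
    have h2 : ∀ n : ℕ, ∑' i : (Σ m : ℕ, S (n + m)),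
        Metric.ediam (Metric.closedBall (i.2 : ℝ) (r (n + i.1))) ^ (s : ℝ) ≤
        ENNReal.ofReal (C * θ ^ n * (1 - θ)⁻¹) := by
      intro n
      rw [ENNReal.tsum_sigma']
      have h3 : ∀ m : ℕ, ∑' y : S (n + m),
          Metric.ediam (Metric.closedBall (y : ℝ) (r (n + m))) ^ (s : ℝ) ≤
          ENNReal.ofReal (C * θ ^ n * θ ^ m) := by
        intro m
        rw [tsum_fintype]
        have h4 : ∀ y : S (n + m), Metric.ediam (Metric.closedBall (y : ℝ) (r (n + m))) ^ (s : ℝ)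
            ≤ ENNReal.ofReal ((2 * r (n + m)) ^ (s : ℝ)) := by
          intro y
          rw [← ENNReal.ofReal_rpow_of_pos (by have := hr (n + m); positivity)]
          apply ENNReal.rpow_le_rpow _ s.2
          apply Metric.ediam_le
          intro x hx z hz
          rw [edist_dist]
          apply ENNReal.ofReal_le_ofReal
          rw [Metric.mem_closedBall] at hx hz
          have h3 := dist_triangle_right x z (y : ℝ)
          linarith
        refine (Finset.sum_le_card_nsmul _ _ _ (fun y _ => h4 y)).trans ?_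
        rw [Finset.card_univ, Fintype.card_coe, nsmul_eq_mul, ← ENNReal.ofReal_natCast,
          ← ENNReal.ofReal_mul (by positivity)]
        apply ENNReal.ofReal_le_ofReal
        have := hc (n + m)
        rw [pow_add, ← mul_assoc] at this
        exact this
      refine (ENNReal.tsum_le_tsum h3).trans ?_
      rw [← ENNReal.ofReal_tsum_of_nonneg (fun m => by positivity)
        ((summable_geometric_of_lt_one hθ hθ1).mul_left _), tsum_mul_left,
        tsum_geometric_of_lt_one hθ hθ1]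
    have h3 : Tendsto (fun n : ℕ => ENNReal.ofReal (C * θ ^ n * (1 - θ)⁻¹)) atTop (𝓝 0) := by
      have h4 : Tendsto (fun n : ℕ => C * θ ^ n * (1 - θ)⁻¹) atTop (𝓝 0) := by
        have := ((tendsto_pow_atTop_nhds_zero_of_lt_one hθ hθ1).const_mul C).mul_const (1 - θ)⁻¹
        simpa using this
      rw [← ENNReal.ofReal_zero]
      exact (ENNReal.continuous_ofReal.tendsto 0).comp h4
    calc _ ≤ liminf (fun n : ℕ => ENNReal.ofReal (C * θ ^ n * (1 - θ)⁻¹)) atTop :=
          liminf_le_liminf (Eventually.of_forall h2)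
      _ = 0 := h3.liminf_eq
  exact ne_top_of_le_ne_top ENNReal.zero_ne_top hmain

/-- few points of height at most `X` -/
def Few (κ : ℝ) (T : Set (ℝ × ℝ)) : Prop :=
  ∀ ε : ℝ, 0 < ε → ∃ C : ℝ, 0 < C ∧ ∀ X : ℝ, 1 ≤ X → ∃ S : Finset ℝ,
    (∀ y h : ℝ, (y, h) ∈ T → h ≤ X → y ∈ S) ∧ (S.card : ℝ) ≤ C * X ^ (κ + ε)

theorem upper_aux {T : Set (ℝ × ℝ)} {κ τ : ℝ} (hT : Few κ T) (hκ : 0 ≤ κ) (hτ : 0 < τ) (s : ℝ≥0)
    (hs : κ < s * τ) : dimH (Lset T τ) ≤ s := by
  have hs0 : (0 : ℝ) < s := by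
    by_contra hcon
    push Not at hcon
    have : (s : ℝ) = 0 := le_antisymm hcon s.2
    rw [this, zero_mul] at hs
    linarith
  obtain ⟨ε, hε⟩ : ∃ ε : ℝ, ε = (s * τ - κ) / 2 := ⟨_, rfl⟩
  have hε0 : 0 < ε := by rw [hε]; linarith
  obtain ⟨C, hC, hCX⟩ := hT ε hε0
  choose! S hS1 hS2 using hCX
  have h2k : ∀ k : ℕ, (1 : ℝ) ≤ 2 ^ (k + 1) := fun k => one_le_pow₀ (by norm_num)
  let E : ℕ → Set ℝ := fun k => {x | ∃ y h : ℝ, (y, h) ∈ T ∧ (2 : ℝ) ^ k ≤ h ∧ h ≤ 2 ^ (k + 1) ∧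
    |x - y| < h ^ (-τ)}
  let r : ℕ → ℝ := fun k => ((2 : ℝ) ^ (-τ)) ^ k
  have hb0 : (0 : ℝ) < 2 ^ (-τ) := by positivity
  have hb1 : (2 : ℝ) ^ (-τ) < 1 := Real.rpow_lt_one_of_one_lt_of_neg (by norm_num) (by linarith)
  have hsub : Lset T τ ⊆ ⋂ n : ℕ, ⋃ m : ℕ, E (n + m) := by
    intro x hx
    rw [Set.mem_iInter]
    intro n
    obtain ⟨y, h, h1, h2, h3⟩ := hx (2 ^ n)
    have h4 : (1 : ℝ) ≤ h := (one_le_pow₀ (by norm_num)).trans h2
    obtain ⟨k, hk1, hk2⟩ := exists_nat_pow_near h4 (by norm_num : (1 : ℝ) < 2)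
    have hnk : n ≤ k := by
      by_contra hcon
      push Not at hcon
      have : (2 : ℝ) ^ (k + 1) ≤ 2 ^ n := pow_le_pow_right₀ (by norm_num) (by omega)
      linarith
    rw [Set.mem_iUnion]
    refine ⟨k - n, ?_⟩
    rw [Nat.add_sub_cancel' hnk]
    exact ⟨y, h, h1, hk1, hk2.le, h3⟩
  refine (dimH_mono hsub).trans ?_
  refine dimH_limsup E (fun k => S (2 ^ (k + 1))) r s ((2 : ℝ) ^ (κ + ε - s * τ))
    (C * 2 ^ (κ + ε) * 2 ^ (s : ℝ)) (fun m => by positivity)
    (tendsto_pow_atTop_nhds_zero_of_lt_one hb0.le hb1)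
    (fun a b hab => pow_le_pow_of_le_one hb0.le hb1.le hab) ?_ (by positivity)
    (Real.rpow_lt_one_of_one_lt_of_neg (by norm_num) (by rw [hε]; linarith)) (by positivity) ?_
  · intro k x hx
    obtain ⟨y, h, h1, h2, h3, h4⟩ := hx
    simp only [Set.mem_iUnion, mem_closedBall, Real.dist_eq, exists_prop]
    refine ⟨y, hS1 _ (h2k k) y h h1 h3, h4.le.trans ?_⟩
    have e : r k = ((2 : ℝ) ^ k) ^ (-τ) := by
      simp only [r]
      rw [← Real.rpow_natCast, ← Real.rpow_mul (by norm_num), ← Real.rpow_natCast,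
        ← Real.rpow_mul (by norm_num)]
      congr 1; ring
    rw [e]
    exact Real.rpow_le_rpow_of_nonpos (by positivity) h2 (by linarith)
  · intro k
    have h1 := hS2 _ (h2k k)
    have e1 : ((2 : ℝ) ^ (k + 1)) ^ (κ + ε) = 2 ^ (κ + ε) * 2 ^ ((k : ℝ) * (κ + ε)) := by
      rw [← Real.rpow_natCast, ← Real.rpow_mul (by norm_num), ← Real.rpow_add (by norm_num)]
      congr 1; push_cast; ring
    have e0 : r k = (2 : ℝ) ^ (-τ * k) := by
      simp only [r]
      rw [← Real.rpow_natCast, ← Real.rpow_mul (by norm_num)]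
    have e2 : (2 * r k) ^ (s : ℝ) = 2 ^ (s : ℝ) * 2 ^ (-((k : ℝ) * (s * τ))) := by
      rw [e0, Real.mul_rpow (by norm_num) (by positivity), ← Real.rpow_mul (by norm_num)]
      congr 2; ring
    have e3 : ((2 : ℝ) ^ (κ + ε - s * τ)) ^ k =
        2 ^ ((k : ℝ) * (κ + ε)) * 2 ^ (-((k : ℝ) * (s * τ))) := by
      rw [← Real.rpow_natCast, ← Real.rpow_mul (by norm_num), ← Real.rpow_add (by norm_num)]
      congr 1; ring
    rw [e2, e3]
    rw [e1] at h1
    calc _ ≤ C * (2 ^ (κ + ε) * 2 ^ ((k : ℝ) * (κ + ε))) *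
          (2 ^ (s : ℝ) * 2 ^ (-((k : ℝ) * (s * τ)))) := by gcongr
      _ = _ := by ring

theorem upper {T : Set (ℝ × ℝ)} {κ τ : ℝ} (hT : Few κ T) (hκ : 0 ≤ κ) (hτ : 0 < τ) :
    dimH (Lset T τ) ≤ ENNReal.ofReal (κ / τ) := by
  apply le_of_forall_gt
  intro c hc
  rcases eq_or_ne c ⊤ with rfl | hct
  · have h1 : dimH (Lset T τ) ≤ ((κ / τ + 1).toNNReal : ℝ≥0) := by
      apply upper_aux hT hκ hτ
      rw [Real.coe_toNNReal _ (by positivity)]
      have : (κ / τ + 1) * τ = κ + τ := by field_simp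
      rw [this]; linarith
    exact lt_of_le_of_lt h1 ENNReal.coe_lt_top
  · obtain ⟨d, hd1, hd2⟩ := exists_between hc
    have hdt : d ≠ ⊤ := (hd2.trans (lt_top_iff_ne_top.2 hct)).ne
    refine lt_of_le_of_lt ?_ hd2
    have h1 : κ / τ < d.toReal := (ENNReal.ofReal_lt_iff_lt_toReal (by positivity) hdt).1 hd1
    have h2 : dimH (Lset T τ) ≤ (d.toNNReal : ℝ≥0) := by
      apply upper_aux hT hκ hτ
      rw [div_lt_iff₀ hτ] at h1
      exact h1
    rwa [ENNReal.coe_toNNReal hdt] at h2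

/-- the approximable points have full measure -/
theorem full {T : Set (ℝ × ℝ)} {κ c0 τ : ℝ} (hT : Rich κ c0 T) (hκ : 0 < κ) (hc0 : 0 < c0)
    (hτ : τ ≤ κ) : volume (Set.Icc (0 : ℝ) 1 \ Lset T τ) = 0 := by
  -- the open sets
  let W : ℕ → Set ℝ := fun N => {x | ∃ y h : ℝ, (y, h) ∈ T ∧ (N : ℝ) + 1 ≤ h ∧ |x - y| < h ^ (-κ)}
  have hWopen : ∀ N, IsOpen (W N) := by
    intro N
    have e : W N = ⋃ y : ℝ, ⋃ h : ℝ, ⋃ _ : (y, h) ∈ T ∧ (N : ℝ) + 1 ≤ h, ball y (h ^ (-κ)) := by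
      ext x
      simp only [W, Set.mem_ofPred_eq, Set.mem_iUnion, mem_ball, Real.dist_eq, exists_prop,
        and_assoc]
    rw [e]
    exact isOpen_iUnion fun _ => isOpen_iUnion fun _ => isOpen_iUnion fun _ => isOpen_ball
  have hsub : ∀ x, (∀ N, x ∈ W N) → x ∈ Lset T τ := by
    intro x hx n
    obtain ⟨y, h, h1, h2, h3⟩ := hx ⌈|n|⌉₊
    have h4 : n ≤ h := by
      have := Nat.le_ceil |n|
      have := le_abs_self n
      linarith
    have h5 : 1 ≤ h := by
      have : (0 : ℝ) ≤ (⌈|n|⌉₊ : ℝ) := Nat.cast_nonneg _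
      linarith
    exact ⟨y, h, h1, h4, h3.trans_le (Real.rpow_le_rpow_of_exponent_le h5 (by linarith))⟩
  -- the measure in intervals
  have hmeas : ∀ N : ℕ, ∀ θ1 θ2 : ℝ, 0 ≤ θ1 → θ1 < θ2 → θ2 ≤ 1 →
      ENNReal.ofReal (c0 * (θ2 - θ1) / 4) ≤ volume (W N ∩ Set.Icc θ1 θ2) := by
    intro N θ1 θ2 h0 h12 h1
    have hl : 0 < θ2 - θ1 := by linarith
    obtain ⟨X0, hX0⟩ := hT (θ1 + (θ2 - θ1) / 4) (θ2 - (θ2 - θ1) / 4) (by linarith) (by linarith)
      (by linarith)
    have ev1 : ∀ᶠ X : ℝ in atTop, X ^ (-κ) ≤ (θ2 - θ1) / 4 :=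
      (tendsto_rpow_neg_atTop hκ).eventually_le_const (by positivity)
    obtain ⟨X, g1, g2, g3⟩ := (ev1.and ((eventually_ge_atTop X0).and
      (eventually_ge_atTop (2 * ((N : ℝ) + 1))))).exists
    have hXpos : 0 < X := by
      have : (0 : ℝ) ≤ N := Nat.cast_nonneg N
      linarith
    obtain ⟨F, hF1, hF2, hF3⟩ := hX0 X g2
    have hXκ : 0 < X ^ (-κ) := by positivity
    have hdisj : ((F : Finset ℝ) : Set ℝ).PairwiseDisjoint fun y => ball y (X ^ (-κ) / 4) := by
      intro y hy z hz hne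
      apply ball_disjoint_ball
      rw [Real.dist_eq]
      have := hF2 y hy z hz hne
      linarith
    have hsubW : (⋃ y ∈ F, ball y (X ^ (-κ) / 4)) ⊆ W N ∩ Set.Icc θ1 θ2 := by
      intro x hx
      simp only [Set.mem_iUnion, mem_ball, Real.dist_eq, exists_prop] at hx
      obtain ⟨y, hy, hxy⟩ := hx
      obtain ⟨k1, k2, h, k3, k4, k5⟩ := hF3 y hy
      have hh0 : 0 < h := by linarith
      constructor
      · refine ⟨y, h, k3, by linarith, ?_⟩
        have : X ^ (-κ) ≤ h ^ (-κ) := Real.rpow_le_rpow_of_nonpos hh0 k5 (by linarith)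
        linarith
      · rw [abs_lt] at hxy
        constructor <;> linarith
    refine le_trans ?_ (measure_mono hsubW)
    rw [measure_biUnion_finset hdisj (fun y _ => measurableSet_ball)]
    simp only [Real.volume_ball]
    rw [Finset.sum_const, nsmul_eq_mul, ← ENNReal.ofReal_natCast,
      ← ENNReal.ofReal_mul (Nat.cast_nonneg _)]
    apply ENNReal.ofReal_le_ofReal
    have e1 : X ^ κ * X ^ (-κ) = 1 := by
      rw [← Real.rpow_add hXpos, add_neg_cancel, Real.rpow_zero]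
    calc c0 * (θ2 - θ1) / 4 = c0 * (θ2 - (θ2 - θ1) / 4 - (θ1 + (θ2 - θ1) / 4)) *
          (X ^ κ * X ^ (-κ)) * (1 / 2) := by rw [e1]; ring
      _ = c0 * (θ2 - (θ2 - θ1) / 4 - (θ1 + (θ2 - θ1) / 4)) * X ^ κ * (2 * (X ^ (-κ) / 4)) := by
          ring
      _ ≤ (F.card : ℝ) * (2 * (X ^ (-κ) / 4)) := by gcongr
  -- each complement is null
  have hnull : ∀ N : ℕ, volume (Set.Ioo (0 : ℝ) 1 \ W N) = 0 := by
    intro N
    by_contra hne
    set s : Set ℝ := Set.Ioo (0 : ℝ) 1 \ W N with hs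
    have hsm : MeasurableSet s := measurableSet_Ioo.diff (hWopen N).measurableSet
    have hae := Besicovitch.ae_tendsto_measure_inter_div volume s
    have hae2 : ∀ᵐ x ∂(volume.restrict s), x ∈ s := ae_restrict_mem hsm
    have hnb : NeBot (ae (volume.restrict s)) := by
      rw [ae_neBot]
      intro h
      exact hne (Measure.restrict_eq_zero.1 h)
    obtain ⟨x, hx, hxs⟩ := (hae.and hae2).exists
    -- the ratio is at most `1 - c0 / 4`
    have hlt : ENNReal.ofReal (1 - c0 / 4) < 1 := by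
      rw [← ENNReal.ofReal_one]
      exact (ENNReal.ofReal_lt_ofReal_iff one_pos).2 (by linarith)
    have hev : ∀ᶠ δ in 𝓝[>] (0 : ℝ),
        volume (s ∩ closedBall x δ) / volume (closedBall x δ) ≤ ENNReal.ofReal (1 - c0 / 4) := by
      have hx0 : 0 < x := hxs.1.1
      have hx1 : x < 1 := hxs.1.2
      have hmin : 0 < min x (1 - x) := lt_min hx0 (by linarith)
      filter_upwards [Ioo_mem_nhdsGT hmin] with δ hδ
      obtain ⟨hδ0, hδ1⟩ := hδ
      have hδx : δ < x := hδ1.trans_le (min_le_left _ _)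
      have hδx1 : δ < 1 - x := hδ1.trans_le (min_le_right _ _)
      have k1 := hmeas N (x - δ) (x + δ) (by linarith) (by linarith) (by linarith)
      have e : x + δ - (x - δ) = 2 * δ := by ring
      rw [e, ← Real.closedBall_eq_Icc] at k1
      have k2 : volume (s ∩ closedBall x δ) + volume (W N ∩ closedBall x δ) ≤
          volume (closedBall x δ) := by
        rw [← measure_union _ ((hWopen N).measurableSet.inter measurableSet_closedBall)]
        · apply measure_mono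
          rintro z (hz | hz)
          · exact hz.2
          · exact hz.2
        · rw [Set.disjoint_left]
          rintro z hz hz'
          exact hz.1.2 hz'.1
      rw [Real.volume_closedBall] at k2 ⊢
      have k3 : volume (s ∩ closedBall x δ) + ENNReal.ofReal (c0 * (2 * δ) / 4) ≤
          ENNReal.ofReal (2 * δ) := (add_le_add le_rfl k1).trans k2
      have k4 : volume (s ∩ closedBall x δ) ≤ ENNReal.ofReal ((1 - c0 / 4) * (2 * δ)) := by
        have k5 := ENNReal.le_sub_of_add_le_right ENNReal.ofReal_ne_top k3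
        rw [← ENNReal.ofReal_sub _ (by positivity)] at k5
        have e2 : 2 * δ - c0 * (2 * δ) / 4 = (1 - c0 / 4) * (2 * δ) := by ring
        rwa [e2] at k5
      rw [ENNReal.div_le_iff (by
        rw [Ne, ENNReal.ofReal_eq_zero, not_le]; positivity) ENNReal.ofReal_ne_top]
      refine k4.trans ?_
      rw [ENNReal.ofReal_mul' (by positivity)]
    have hfin := le_of_tendsto hx hev
    exact absurd (lt_of_le_of_lt hfin hlt) (lt_irrefl _)
  have hfin : Set.Icc (0 : ℝ) 1 \ Lset T τ ⊆ (⋃ N : ℕ, Set.Ioo (0 : ℝ) 1 \ W N) ∪ {0, 1} := by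
    intro x hx
    by_cases h01 : x = 0 ∨ x = 1
    · right
      simpa using h01
    · left
      push Not at h01
      have hx2 : ¬ ∀ N, x ∈ W N := fun h => hx.2 (hsub x h)
      push Not at hx2
      obtain ⟨N, hN⟩ := hx2
      rw [Set.mem_iUnion]
      exact ⟨N, ⟨lt_of_le_of_ne hx.1.1 (Ne.symm h01.1), lt_of_le_of_ne hx.1.2 h01.2⟩, hN⟩
  refine measure_mono_null hfin (measure_union_null (measure_iUnion_null hnull) ?_)
  exact (Set.toFinite {(0 : ℝ), 1}).measure_zero volume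

end Pool.Agent.X4.JB
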