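import Mathlib
import Pool.Agent.X4.JB.Frac
import Pool.Agent.X4.JB.Upper
import Pool.Agent.X4.HC.Omega
import Pool.Agent.W221.ABC.Main7

/-!
# Metric theory of abc triples with small radicals
-/

set_option autoImplicit false

namespace Pool.Agent.X4.JB

open Finset Filter Topology MeasureTheory Pool.Agent.X4.MK

/-- triples -/
def IsTr (t : ℕ × ℕ × ℕ) : Prop :=
  0 < t.1 ∧ 0 < t.2.1 ∧ Nat.Coprime t.1 t.2.1 ∧ t.1 + t.2.1 = t.2.2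

/-- violations of Oesterlé's inequality -/
def Viol (M : ℝ) : Set (ℕ × ℕ × ℕ) :=
  {t | IsTr t ∧ (rd (t.1 * t.2.1 * t.2.2) : ℝ) ^ M ≤ t.2.2}

/-- restricted radicals -/
def Restr (α β γ : ℝ) : Set (ℕ × ℕ × ℕ) :=
  {t | IsTr t ∧ (rd t.1 : ℝ) ≤ (t.1 : ℝ) ^ α ∧ (rd t.2.1 : ℝ) ≤ (t.2.1 : ℝ) ^ β ∧
    (rd t.2.2 : ℝ) ≤ (t.2.2 : ℝ) ^ γ}

/-- approximable numbers -/
def Appr (P : Set (ℕ × ℕ × ℕ)) (τ : ℝ) : Set ℝ :=
  {x | 0 ≤ x ∧ x ≤ 1 ∧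
    {t | t ∈ P ∧ |x - (t.1 : ℝ) / t.2.2| < (t.2.2 : ℝ) ^ (-τ)}.Infinite}

/-- the pairs (fraction, height) -/
def Pt (P : Set (ℕ × ℕ × ℕ)) : Set (ℝ × ℝ) :=
  {q | ∃ t ∈ P, q.1 = (t.1 : ℝ) / t.2.2 ∧ q.2 = t.2.2}

theorem fin_box (N : ℕ) : {t : ℕ × ℕ × ℕ | IsTr t ∧ t.2.2 ≤ N}.Finite := by
  refine Set.Finite.subset (Finset.finite_toSet
    ((range (N + 1)) ×ˢ (range (N + 1)) ×ˢ (range (N + 1)))) ?_
  rintro ⟨a, b, c⟩ ⟨⟨h1, h2, h3, h4⟩, h5⟩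
  simp only at h1 h2 h4 h5
  simp only [coe_product, Set.mem_prod, coe_range, Set.mem_Iio]
  omega

theorem appr_sup (P : Set (ℕ × ℕ × ℕ)) (τ : ℝ) : Lset (Pt P) τ ∩ Set.Icc 0 1 ⊆ Appr P τ := by
  rintro x ⟨hx, h0, h1⟩
  refine ⟨h0, h1, ?_⟩
  intro hfin
  obtain ⟨N, hN⟩ := (hfin.image fun t => t.2.2).bddAbove
  obtain ⟨y, h, ⟨t, ht, rfl, rfl⟩, h3, h4⟩ := hx ((N : ℝ) + 1)
  have h5 := hN (Set.mem_image_of_mem _ (show t ∈ {t | t ∈ P ∧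
    |x - (t.1 : ℝ) / t.2.2| < (t.2.2 : ℝ) ^ (-τ)} from ⟨ht, h4⟩))
  have h6 : (t.2.2 : ℝ) ≤ N := by exact_mod_cast h5
  linarith

theorem appr_sub {P : Set (ℕ × ℕ × ℕ)} (hP : ∀ t ∈ P, IsTr t) (τ : ℝ) :
    Appr P τ ⊆ Lset (Pt P) τ := by
  rintro x ⟨-, -, hinf⟩ n
  have h1 : {t : ℕ × ℕ × ℕ | IsTr t ∧ t.2.2 ≤ ⌈|n|⌉₊}.Finite := fin_box _
  obtain ⟨t, ht1, ht2⟩ := (hinf.sdiff h1).nonempty
  refine ⟨(t.1 : ℝ) / t.2.2, t.2.2, ⟨t, ht1.1, rfl, rfl⟩, ?_, ht1.2⟩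
  have h2 : ¬ t.2.2 ≤ ⌈|n|⌉₊ := fun h => ht2 ⟨hP t ht1.1, h⟩
  have h3 : ((⌈|n|⌉₊ : ℕ) : ℝ) < t.2.2 := by exact_mod_cast not_le.1 h2
  have h4 := Nat.le_ceil |n|
  linarith [le_abs_self n]

theorem rich_of {P : Set (ℕ × ℕ × ℕ)} {α β γ : ℝ} (hα : 0 < α) (hα1 : α ≤ 1) (hβ : 0 < β)
    (hβ1 : β ≤ 1) (hγ : 0 < γ) (hγ1 : γ ≤ 1) (hs : 1 < α + β + γ)
    (hP : ∀ a b c : ℕ, Tri α β γ a b c → (a, b, c) ∈ P) :
    ∃ c0 : ℝ, 0 < c0 ∧ Rich (α + β + γ - 1) c0 (Pt P) := by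
  obtain ⟨c0, hc0, H⟩ := frac α β γ hα hα1 hβ hβ1 hγ hγ1 hs
  refine ⟨c0, hc0, ?_⟩
  intro θ1 θ2 h0 h12 h1
  obtain ⟨X0, hX0⟩ := H θ1 θ2 h0 h12 h1
  refine ⟨X0, fun X hX => ?_⟩
  obtain ⟨F, f1, f2, f3⟩ := hX0 X hX
  refine ⟨F, f1, f2, fun x hx => ?_⟩
  obtain ⟨g1, g2, a, b, c, g3, g4, g5, g6⟩ := f3 x hx
  exact ⟨g1, g2, c, ⟨(a, b, c), hP a b c g3, g6, rfl⟩, g4, g5⟩

/-- measure and lower bound for the dimension -/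
theorem lower_of {P : Set (ℕ × ℕ × ℕ)} {α β γ κ : ℝ} (hα : 0 < α) (hα1 : α ≤ 1) (hβ : 0 < β)
    (hβ1 : β ≤ 1) (hγ : 0 < γ) (hγ1 : γ ≤ 1) (hκ : κ = α + β + γ - 1) (hκ0 : 0 < κ)
    (hP : ∀ a b c : ℕ, Tri α β γ a b c → (a, b, c) ∈ P) :
    (∀ τ : ℝ, τ ≤ κ → volume (Set.Icc (0 : ℝ) 1 \ Appr P τ) = 0) ∧
    (∀ τ : ℝ, κ ≤ τ → ENNReal.ofReal (κ / τ) ≤ dimH (Appr P τ)) := by
  obtain ⟨c0, hc0, hR⟩ := rich_of hα hα1 hβ hβ1 hγ hγ1 (by linarith) hP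
  rw [← hκ] at hR
  constructor
  · intro τ hτ
    refine measure_mono_null ?_ (full hR hκ0 hc0 hτ)
    rintro x ⟨h1, h2⟩
    exact ⟨h1, fun h3 => h2 (appr_sup P τ ⟨h3, h1⟩)⟩
  · intro τ hτ
    have hτ0 : 0 < τ := by linarith
    refine le_trans ?_ (dimH_mono (appr_sup P τ))
    apply le_of_forall_lt
    intro d hd
    have hdt : d ≠ ⊤ := (hd.trans_le le_top).ne
    have h1 : d.toReal < κ / τ := (ENNReal.lt_ofReal_iff_toReal_lt hdt).1 hd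
    obtain ⟨t, ht1, ht2⟩ := exists_between h1
    have ht0 : 0 < t := lt_of_le_of_lt ENNReal.toReal_nonneg ht1
    have h2 := cantor hR hκ0 hc0 hτ ht0 (by rwa [lt_div_iff₀ hτ0] at ht2)
    refine lt_of_lt_of_le ?_ h2
    exact (ENNReal.lt_ofReal_iff_toReal_lt hdt).2 ht1

/-- the count of the pairs -/
theorem few_of {P : Set (ℕ × ℕ × ℕ)} (hP : ∀ t ∈ P, IsTr t) {κ : ℝ}
    (h : ∀ ε : ℝ, 0 < ε → ∃ C : ℝ, ∀ X : ℕ, 1 ≤ X →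
      (({t | t ∈ P ∧ t.2.2 ≤ X}.ncard : ℕ) : ℝ) ≤ C * (X : ℝ) ^ (κ + ε)) (hκ : 0 ≤ κ) :
    Few κ (Pt P) := by
  classical
  intro ε hε
  obtain ⟨C, hC⟩ := h ε hε
  refine ⟨max C 1, lt_max_of_lt_right one_pos, fun X hX => ?_⟩
  have hfin : {t | t ∈ P ∧ t.2.2 ≤ ⌊X⌋₊}.Finite :=
    (fin_box ⌊X⌋₊).subset fun t ht => ⟨hP t ht.1, ht.2⟩
  refine ⟨hfin.toFinset.image fun t => (t.1 : ℝ) / t.2.2, ?_, ?_⟩
  · rintro y h ⟨t, ht, h1, h2⟩ hX'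
    simp only at h1 h2
    rw [mem_image]
    refine ⟨t, ?_, h1.symm⟩
    rw [Set.Finite.mem_toFinset]
    refine ⟨ht, ?_⟩
    rw [h2] at hX'
    exact Nat.le_floor hX'
  · have h1 : ((hfin.toFinset.image fun t => (t.1 : ℝ) / t.2.2).card : ℝ) ≤
        (({t | t ∈ P ∧ t.2.2 ≤ ⌊X⌋₊}.ncard : ℕ) : ℝ) := by
      rw [Set.ncard_eq_toFinset_card _ hfin]
      exact_mod_cast card_image_le
    have h2 := hC ⌊X⌋₊ (Nat.le_floor (by exact_mod_cast hX))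
    have h3 : ((⌊X⌋₊ : ℕ) : ℝ) ≤ X := Nat.floor_le (by linarith)
    refine (h1.trans h2).trans ?_
    have h4 : ((⌊X⌋₊ : ℕ) : ℝ) ^ (κ + ε) ≤ X ^ (κ + ε) :=
      Real.rpow_le_rpow (Nat.cast_nonneg _) h3 (by linarith)
    have h5 : 0 ≤ ((⌊X⌋₊ : ℕ) : ℝ) ^ (κ + ε) := by positivity
    calc C * ((⌊X⌋₊ : ℕ) : ℝ) ^ (κ + ε) ≤ max C 1 * ((⌊X⌋₊ : ℕ) : ℝ) ^ (κ + ε) :=
          mul_le_mul_of_nonneg_right (le_max_left _ _) h5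
      _ ≤ max C 1 * X ^ (κ + ε) := by gcongr

theorem upper_of {P : Set (ℕ × ℕ × ℕ)} (hP : ∀ t ∈ P, IsTr t) {κ : ℝ}
    (h : ∀ ε : ℝ, 0 < ε → ∃ C : ℝ, ∀ X : ℕ, 1 ≤ X →
      (({t | t ∈ P ∧ t.2.2 ≤ X}.ncard : ℕ) : ℝ) ≤ C * (X : ℝ) ^ (κ + ε)) (hκ : 0 ≤ κ) {τ : ℝ}
    (hτ : 0 < τ) : dimH (Appr P τ) ≤ ENNReal.ofReal (κ / τ) :=
  (dimH_mono (appr_sub hP τ)).trans (upper (few_of hP h hκ) hκ hτ)

/-! ### radicals -/

theorem rd_mul {m n : ℕ} (h : Nat.Coprime m n) : rd (m * n) = rd m * rd n := by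
  unfold rd
  rw [h.primeFactors_mul, Finset.prod_union h.disjoint_primeFactors]

theorem rd_mul3 {t : ℕ × ℕ × ℕ} (ht : IsTr t) :
    rd (t.1 * t.2.1 * t.2.2) = rd t.1 * rd t.2.1 * rd t.2.2 := by
  obtain ⟨a, b, c⟩ := t
  obtain ⟨h1, h2, h3, h4⟩ := ht
  simp only at h1 h2 h3 h4 ⊢
  subst h4
  have h5 : Nat.Coprime (a * b) (a + b) := by
    apply Nat.Coprime.mul_left
    · rw [Nat.coprime_self_add_right]; exact h3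
    · rw [Nat.coprime_add_self_right]; exact h3.symm
  rw [rd_mul h5, rd_mul h3]

theorem rd_pos (m : ℕ) : 0 < rd m :=
  Finset.prod_pos fun p hp => (Nat.prime_of_mem_primeFactors hp).pos

theorem viol_iff {M : ℝ} (hM : 0 < M) {t : ℕ × ℕ × ℕ} :
    (rd (t.1 * t.2.1 * t.2.2) : ℝ) ^ M ≤ t.2.2 ↔
      (rd (t.1 * t.2.1 * t.2.2) : ℝ) ≤ (t.2.2 : ℝ) ^ (1 / M) := by
  have h1 : (0 : ℝ) ≤ rd (t.1 * t.2.1 * t.2.2) := Nat.cast_nonneg _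
  have h2 : (0 : ℝ) ≤ t.2.2 := Nat.cast_nonneg _
  constructor
  · intro h
    have := Real.rpow_le_rpow (by positivity) h (by positivity : 0 ≤ 1 / M)
    rwa [← Real.rpow_mul h1, mul_one_div_cancel hM.ne', Real.rpow_one] at this
  · intro h
    have := Real.rpow_le_rpow h1 h hM.le
    rwa [← Real.rpow_mul h2, one_div_mul_cancel hM.ne', Real.rpow_one] at this

theorem tri_viol {M : ℝ} (hM : 1 / 3 ≤ M) {a b c : ℕ}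
    (h : Tri (1 / M / 3) (1 / M / 3) (1 / M / 3) a b c) : (a, b, c) ∈ Viol M := by
  have hM0 : 0 < M := by linarith
  have hT : IsTr (a, b, c) := ⟨h.apos, h.bpos, h.cop, h.sum⟩
  refine ⟨hT, ?_⟩
  rw [viol_iff hM0, rd_mul3 hT]
  have hcpos : 0 < c := by have := h.sum; have := h.apos; omega
  have hac : (a : ℝ) ≤ c := by
    have := h.sum
    exact_mod_cast (by omega : a ≤ c)
  have hbc : (b : ℝ) ≤ c := by
    have := h.sum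
    exact_mod_cast (by omega : b ≤ c)
  have hc0 : (0 : ℝ) < c := by exact_mod_cast hcpos
  have hμ : 0 ≤ 1 / M / 3 := by positivity
  push_cast
  calc (rd a : ℝ) * rd b * rd c ≤ (a : ℝ) ^ (1 / M / 3) * (b : ℝ) ^ (1 / M / 3) *
        (c : ℝ) ^ (1 / M / 3) := by
        have := h.ra
        have := h.rb
        have := h.rc
        gcongr
    _ ≤ (c : ℝ) ^ (1 / M / 3) * (c : ℝ) ^ (1 / M / 3) * (c : ℝ) ^ (1 / M / 3) := by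
        gcongr
    _ = (c : ℝ) ^ (1 / M) := by
        rw [← Real.rpow_add hc0, ← Real.rpow_add hc0]
        congr 1; ring

theorem viol_count {M : ℝ} (hM : 0 < M) (ε : ℝ) (hε : 0 < ε) :
    ∃ C : ℝ, ∀ X : ℕ, 1 ≤ X →
      (({t | t ∈ Viol M ∧ t.2.2 ≤ X}.ncard : ℕ) : ℝ) ≤
        C * (X : ℝ) ^ (Pool.Agent.W221.ABC7.Fx (1 / M) + ε) := by
  obtain ⟨C, hC⟩ := Pool.Agent.W221.ABC7.count_FxB 1 (1 / M) ε (by positivity) hε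
  refine ⟨C, fun X hX => ?_⟩
  refine le_trans ?_ (hC X hX)
  have hsub : {t | t ∈ Viol M ∧ t.2.2 ≤ X} ⊆ Pool.Agent.W221.ABC7.ExcB 1 (1 / M) X := by
    rintro t ⟨⟨⟨h1, h2, h3, h4⟩, h5⟩, h6⟩
    refine ⟨h1, h2, h3, h4, h6, ?_⟩
    rw [one_mul]
    exact (viol_iff hM).1 h5
  exact_mod_cast Set.ncard_le_ncard hsub (Pool.Agent.W221.ABC7.excB_finite _ _ _)

/-- integers with small radical -/
theorem small_rd {α : ℝ} (hα : 0 ≤ α) (ε : ℝ) (hε : 0 < ε) : ∃ C : ℝ, 0 < C ∧ ∀ X : ℕ, 1 ≤ X →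
    ((((Icc 1 X).filter fun n : ℕ => (rd n : ℝ) ≤ (n : ℝ) ^ α).card : ℕ) : ℝ) ≤
      C * (X : ℝ) ^ (α + ε) := by
  obtain ⟨C, hC, H⟩ := Pool.Agent.X4.HC.sum_wt hε
  refine ⟨Real.exp (C * 1), by positivity, fun X hX => ?_⟩
  have hX0 : (0 : ℝ) < X := by exact_mod_cast hX
  have h1 := H 1 X zero_le_one
  have h2 : ∀ n ∈ (Icc 1 X).filter (fun n : ℕ => (rd n : ℝ) ≤ (n : ℝ) ^ α),
      (1 : ℝ) ≤ (X : ℝ) ^ α * (1 ^ n.primeFactors.card / (Pool.Agent.X4.HC.rad n : ℝ)) := by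
    intro n hn
    rw [mem_filter, Finset.mem_Icc] at hn
    have h3 : (0 : ℝ) < (Pool.Agent.X4.HC.rad n : ℝ) := by
      exact_mod_cast Pool.Agent.X4.HC.rad_pos n
    have h4 : (Pool.Agent.X4.HC.rad n : ℝ) ≤ (n : ℝ) ^ α := hn.2
    have h5 : (n : ℝ) ^ α ≤ (X : ℝ) ^ α :=
      Real.rpow_le_rpow (Nat.cast_nonneg _) (by exact_mod_cast hn.1.2) hα
    rw [one_pow, mul_one_div, le_div_iff₀ h3]
    linarith
  calc ((((Icc 1 X).filter fun n : ℕ => (rd n : ℝ) ≤ (n : ℝ) ^ α).card : ℕ) : ℝ) =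
      ∑ _n ∈ (Icc 1 X).filter (fun n : ℕ => (rd n : ℝ) ≤ (n : ℝ) ^ α), (1 : ℝ) := by simp
    _ ≤ ∑ n ∈ (Icc 1 X).filter (fun n : ℕ => (rd n : ℝ) ≤ (n : ℝ) ^ α),
        (X : ℝ) ^ α * (1 ^ n.primeFactors.card / (Pool.Agent.X4.HC.rad n : ℝ)) :=
        Finset.sum_le_sum h2
    _ ≤ ∑ n ∈ Icc 1 X,
        (X : ℝ) ^ α * (1 ^ n.primeFactors.card / (Pool.Agent.X4.HC.rad n : ℝ)) := by
        apply Finset.sum_le_sum_of_subset_of_nonneg (filter_subset _ _)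
        intro n _ _
        positivity
    _ = (X : ℝ) ^ α * ∑ n ∈ Icc 1 X,
        (1 ^ n.primeFactors.card / (Pool.Agent.X4.HC.rad n : ℝ)) := by rw [Finset.mul_sum]
    _ ≤ (X : ℝ) ^ α * ((X : ℝ) ^ ε * Real.exp (C * 1)) := by gcongr
    _ = _ := by rw [Real.rpow_add hX0]; ring

/-- the count with two restricted members -/
theorem restr_count {α β γ : ℝ} (hα : 0 ≤ α) (hβ : 0 ≤ β) (hγ : 0 ≤ γ) (ε : ℝ) (hε : 0 < ε) :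
    ∃ C : ℝ, ∀ X : ℕ, 1 ≤ X →
      (({t | t ∈ Restr α β γ ∧ t.2.2 ≤ X}.ncard : ℕ) : ℝ) ≤
        C * (X : ℝ) ^ (min (α + β) (min (α + γ) (β + γ)) + ε) := by
  classical
  obtain ⟨C1, hC1, H1⟩ := small_rd hα (ε / 2) (by positivity)
  obtain ⟨C2, hC2, H2⟩ := small_rd hβ (ε / 2) (by positivity)
  obtain ⟨C3, hC3, H3⟩ := small_rd hγ (ε / 2) (by positivity)
  -- general bound
  have gen : ∀ (u v C C' : ℝ) (X : ℕ) (f : ℕ × ℕ × ℕ → ℕ × ℕ), 1 ≤ X → 0 < C → 0 < C' →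
      ((((Icc 1 X).filter fun n : ℕ => (rd n : ℝ) ≤ (n : ℝ) ^ u).card : ℕ) : ℝ) ≤
        C * (X : ℝ) ^ (u + ε / 2) →
      ((((Icc 1 X).filter fun n : ℕ => (rd n : ℝ) ≤ (n : ℝ) ^ v).card : ℕ) : ℝ) ≤
        C' * (X : ℝ) ^ (v + ε / 2) →
      (∀ t, t ∈ Restr α β γ ∧ t.2.2 ≤ X → (f t).1 ∈ (Icc 1 X).filter
        (fun n : ℕ => (rd n : ℝ) ≤ (n : ℝ) ^ u) ∧ (f t).2 ∈ (Icc 1 X).filter
        (fun n : ℕ => (rd n : ℝ) ≤ (n : ℝ) ^ v)) →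
      Set.InjOn f {t | t ∈ Restr α β γ ∧ t.2.2 ≤ X} →
      (({t | t ∈ Restr α β γ ∧ t.2.2 ≤ X}.ncard : ℕ) : ℝ) ≤
        C * C' * (X : ℝ) ^ (u + v + ε) := by
    intro u v C C' X f hX hC hC' h1 h2 h3 hinj
    have hX0 : (0 : ℝ) < X := by exact_mod_cast hX
    have h4 : {t | t ∈ Restr α β γ ∧ t.2.2 ≤ X}.ncard ≤
        (((Icc 1 X).filter (fun n : ℕ => (rd n : ℝ) ≤ (n : ℝ) ^ u)) ×ˢ
          ((Icc 1 X).filter (fun n : ℕ => (rd n : ℝ) ≤ (n : ℝ) ^ v))).card := by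
      rw [← Set.ncard_coe_finset]
      refine Set.ncard_le_ncard_of_injOn f ?_ hinj (Finset.finite_toSet _)
      intro t ht
      rw [Finset.mem_coe, mem_product]
      exact h3 t ht
    rw [card_product] at h4
    calc (({t | t ∈ Restr α β γ ∧ t.2.2 ≤ X}.ncard : ℕ) : ℝ) ≤
        ((((Icc 1 X).filter fun n : ℕ => (rd n : ℝ) ≤ (n : ℝ) ^ u).card : ℕ) : ℝ) *
        ((((Icc 1 X).filter fun n : ℕ => (rd n : ℝ) ≤ (n : ℝ) ^ v).card : ℕ) : ℝ) := by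
          exact_mod_cast h4
      _ ≤ (C * (X : ℝ) ^ (u + ε / 2)) * (C' * (X : ℝ) ^ (v + ε / 2)) := by gcongr
      _ = C * C' * (X : ℝ) ^ (u + v + ε) := by
          rw [show u + v + ε = (u + ε / 2) + (v + ε / 2) by ring,
            Real.rpow_add hX0 (u + ε / 2) (v + ε / 2)]
          ring
  have hmem : ∀ {n X : ℕ} {u : ℝ}, 0 < n → n ≤ X → (rd n : ℝ) ≤ (n : ℝ) ^ u →
      n ∈ (Icc 1 X).filter (fun n : ℕ => (rd n : ℝ) ≤ (n : ℝ) ^ u) := by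
    intro n X u h1 h2 h3
    rw [mem_filter, Finset.mem_Icc]
    exact ⟨⟨h1, h2⟩, h3⟩
  refine ⟨C1 * C2 + C1 * C3 + C2 * C3, fun X hX => ?_⟩
  have hX1 : (1 : ℝ) ≤ X := by exact_mod_cast hX
  have hX0 : (0 : ℝ) < X := by linarith
  have g12 := gen α β C1 C2 X (fun t => (t.1, t.2.1)) hX hC1 hC2 (H1 X hX) (H2 X hX)
    (by
      rintro ⟨a, b, c⟩ ⟨⟨⟨h1, h2, h3, h4⟩, h5, h6, h7⟩, h8⟩
      simp only at h1 h2 h4 h8 ⊢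
      exact ⟨hmem h1 (by omega) h5, hmem h2 (by omega) h6⟩)
    (by
      rintro ⟨a, b, c⟩ ⟨⟨⟨-, -, -, h4⟩, -⟩, -⟩ ⟨a', b', c'⟩ ⟨⟨⟨-, -, -, h4'⟩, -⟩, -⟩ h
      simp only [Prod.mk.injEq] at h h4 h4' ⊢
      omega)
  have g13 := gen α γ C1 C3 X (fun t => (t.1, t.2.2)) hX hC1 hC3 (H1 X hX) (H3 X hX)
    (by
      rintro ⟨a, b, c⟩ ⟨⟨⟨h1, h2, h3, h4⟩, h5, h6, h7⟩, h8⟩
      simp only at h1 h2 h4 h8 ⊢
      exact ⟨hmem h1 (by omega) h5, hmem (by omega) h8 h7⟩)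
    (by
      rintro ⟨a, b, c⟩ ⟨⟨⟨-, -, -, h4⟩, -⟩, -⟩ ⟨a', b', c'⟩ ⟨⟨⟨-, -, -, h4'⟩, -⟩, -⟩ h
      simp only [Prod.mk.injEq] at h h4 h4' ⊢
      omega)
  have g23 := gen β γ C2 C3 X (fun t => (t.2.1, t.2.2)) hX hC2 hC3 (H2 X hX) (H3 X hX)
    (by
      rintro ⟨a, b, c⟩ ⟨⟨⟨h1, h2, h3, h4⟩, h5, h6, h7⟩, h8⟩
      simp only at h1 h2 h4 h8 ⊢
      exact ⟨hmem h2 (by omega) h6, hmem (by omega) h8 h7⟩)
    (by
      rintro ⟨a, b, c⟩ ⟨⟨⟨-, -, -, h4⟩, -⟩, -⟩ ⟨a', b', c'⟩ ⟨⟨⟨-, -, -, h4'⟩, -⟩, -⟩ h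
      simp only [Prod.mk.injEq] at h h4 h4' ⊢
      omega)
  rcases min_choice (α + β) (min (α + γ) (β + γ)) with h | h
  · rw [h]
    refine g12.trans (mul_le_mul_of_nonneg_right ?_ (by positivity))
    have : 0 < C1 * C3 := by positivity
    have : 0 < C2 * C3 := by positivity
    linarith
  · rw [h]
    rcases min_choice (α + γ) (β + γ) with h' | h'
    · rw [h']
      refine g13.trans (mul_le_mul_of_nonneg_right ?_ (by positivity))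
      have : 0 < C1 * C2 := by positivity
      have : 0 < C2 * C3 := by positivity
      linarith
    · rw [h']
      refine g23.trans (mul_le_mul_of_nonneg_right ?_ (by positivity))
      have : 0 < C1 * C2 := by positivity
      have : 0 < C1 * C3 := by positivity
      linarith

theorem main_viol (M : ℝ) (hM : 1 / 3 ≤ M) (hM1 : M < 1) :
    (∀ τ : ℝ, τ ≤ 1 / M - 1 → volume (Set.Icc (0 : ℝ) 1 \ Appr (Viol M) τ) = 0) ∧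
    (∀ τ : ℝ, 1 / M - 1 ≤ τ → ENNReal.ofReal ((1 / M - 1) / τ) ≤ dimH (Appr (Viol M) τ)) := by
  have hM0 : 0 < M := by linarith
  have h1 : 1 / M ≤ 3 := by rw [div_le_iff₀ hM0]; linarith
  have h2 : 1 < 1 / M := by rw [lt_div_iff₀ hM0]; linarith
  exact lower_of (α := 1 / M / 3) (β := 1 / M / 3) (γ := 1 / M / 3) (by positivity) (by linarith)
    (by positivity) (by linarith) (by positivity) (by linarith) (by ring) (by linarith)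
    fun a b c h => tri_viol hM h

theorem main_viol_upper (M : ℝ) (hM : 0 < M) (τ : ℝ) (hτ : 0 < τ) :
    dimH (Appr (Viol M) τ) ≤ ENNReal.ofReal (Pool.Agent.W221.ABC7.Fx (1 / M) / τ) :=
  upper_of (fun t ht => ht.1) (fun ε hε => viol_count hM ε hε)
    (Pool.Agent.W221.ABC7.Fx_pos (1 / M) (by positivity)).le hτ

theorem main_viol_eq (M : ℝ) (hM : 1 / 3 ≤ M) (hM1 : M ≤ 1 / 2) (τ : ℝ) (hτ : 1 / M - 1 ≤ τ) :
    dimH (Appr (Viol M) τ) = ENNReal.ofReal ((1 / M - 1) / τ) := by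
  have hM0 : 0 < M := by linarith
  have h2 : 2 ≤ 1 / M := by rw [le_div_iff₀ hM0]; linarith
  apply le_antisymm
  · have h3 := main_viol_upper M hM0 τ (by linarith)
    have h4 : Pool.Agent.W221.ABC7.Fx (1 / M) = 1 / M - 1 := by
      rw [Pool.Agent.W221.ABC7.Fx_eq]
      rcases eq_or_lt_of_le h2 with h5 | h5
      · rw [← h5]
        norm_num
      · apply max_eq_left
        exact (min_le_left _ _).trans (by linarith)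
    rwa [h4] at h3
  · exact (main_viol M hM (by linarith)).2 τ hτ

theorem main_restr (α β γ : ℝ) (hα : 0 < α) (hα1 : α ≤ 1) (hβ : 0 < β) (hβ1 : β ≤ 1) (hγ : 0 < γ)
    (hγ1 : γ ≤ 1) (hs : 1 < α + β + γ) :
    (∀ τ : ℝ, τ ≤ α + β + γ - 1 → volume (Set.Icc (0 : ℝ) 1 \ Appr (Restr α β γ) τ) = 0) ∧
    (∀ τ : ℝ, α + β + γ - 1 ≤ τ →
      ENNReal.ofReal ((α + β + γ - 1) / τ) ≤ dimH (Appr (Restr α β γ) τ) ∧
      dimH (Appr (Restr α β γ) τ) ≤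
        ENNReal.ofReal (min (α + β) (min (α + γ) (β + γ)) / τ)) := by
  have h := lower_of (P := Restr α β γ) hα hα1 hβ hβ1 hγ hγ1 rfl (by linarith)
    (fun a b c h => ⟨⟨h.apos, h.bpos, h.cop, h.sum⟩, h.ra, h.rb, h.rc⟩)
  refine ⟨h.1, fun τ hτ => ⟨h.2 τ hτ, ?_⟩⟩
  refine upper_of (fun t ht => ht.1) (fun ε hε => restr_count hα.le hβ.le hγ.le ε hε) ?_
    (by linarith)
  exact le_min (by linarith) (le_min (by linarith) (by linarith))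

end Pool.Agent.X4.JB
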